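import Pool.Agent.H91.CS.MLAN

/-!
# Module LSC: a local version of Schottky's theorem

PROOF. Landau's theorem at the points of a segment and a comparison argument.
-/

set_option autoImplicit false

open Filter Topology Metric Set

namespace Pool.Agent.H64.MJ

theorem lsc_der {CL : ℝ} (hL : ∀ g : ℂ → ℂ, DifferentiableOn ℂ g (ball 0 1) →
    (∀ z ∈ ball (0 : ℂ) 1, g z ≠ 0 ∧ g z ≠ 1) → ‖deriv g 0‖ ≤ CL * (1 + ‖g 0‖ ^ 2)) {g : ℂ → ℂ} {r : ℝ} (hr : 0 < r)
    (hg : DifferentiableOn ℂ g (ball 0 (2 * r))) (hg01 : ∀ z ∈ ball (0 : ℂ) (2 * r), g z ≠ 0 ∧ g z ≠ 1) {x : ℂ}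
    (hx : ‖x‖ ≤ r) : r * ‖deriv g x‖ ≤ CL * (1 + ‖g x‖ ^ 2) := by
  have hmap : ∀ z ∈ ball (0 : ℂ) 1, x + (r : ℂ) * z ∈ ball (0 : ℂ) (2 * r) := by
    intro z hz
    rw [mem_ball_zero_iff] at hz ⊢
    refine (norm_add_le _ _).trans_lt ?_
    rw [norm_mul, Complex.norm_real, Real.norm_of_nonneg hr.le]
    nlinarith
  have h1 := hL (fun z => g (x + (r : ℂ) * z)) (by
    refine DifferentiableOn.comp hg ?_ hmap
    fun_prop) (fun z hz => hg01 _ (hmap z hz))
  have hxm : x ∈ ball (0 : ℂ) (2 * r) := mem_ball_zero_iff.2 (by linarith)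
  have h2 : HasDerivAt (fun z : ℂ => g (x + (r : ℂ) * z)) (deriv g x * (r : ℂ)) 0 := by
    have h3 : HasDerivAt g (deriv g x) (x + (r : ℂ) * 0) := by
      rw [mul_zero, add_zero]
      exact (hg.differentiableAt (isOpen_ball.mem_nhds hxm)).hasDerivAt
    have h4 : HasDerivAt (fun z : ℂ => x + (r : ℂ) * z) (r : ℂ) 0 := by
      have := ((hasDerivAt_id (0 : ℂ)).const_mul (r : ℂ)).const_add x
      simpa using this
    exact HasDerivAt.comp (0 : ℂ) h3 h4
  rw [h2.deriv, norm_mul, Complex.norm_real, Real.norm_of_nonneg hr.le] at h1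
  simp only [mul_zero, add_zero] at h1
  linarith

/-- functions which omit `0, 1` are locally Lipschitz, with a constant which depends only on the value at the centre -/
theorem lsc {r : ℝ} (hr : 0 < r) (M : ℝ) : ∃ K : ℝ, 0 < K ∧ ∀ g : ℂ → ℂ, DifferentiableOn ℂ g (ball 0 (2 * r)) →
    (∀ z ∈ ball (0 : ℂ) (2 * r), g z ≠ 0 ∧ g z ≠ 1) → ‖g 0‖ ≤ M →
    ∀ z : ℂ, ‖z‖ ≤ r → K * ‖z‖ ≤ 1 → ‖g z - g 0‖ ≤ K * ‖z‖ := by
  obtain ⟨CL, hCL, hL⟩ := Pool.Agent.H91.CS.landau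
  obtain ⟨K, hK⟩ : ∃ K, K = CL * (1 + (|M| + 1) ^ 2) / r + 1 := ⟨_, rfl⟩
  have hK0 : 0 < K := by rw [hK]; positivity
  refine ⟨K, hK0, fun g hg hg01 hgM z hz hKz => ?_⟩
  by_cases hz0 : z = 0
  · rw [hz0, sub_self, norm_zero, mul_zero]
  have hzp : 0 < ‖z‖ := norm_pos_iff.2 hz0
  obtain ⟨f, hf⟩ : ∃ f : ℝ → ℂ, f = fun s : ℝ => g ((s : ℂ) * z) - g 0 := ⟨_, rfl⟩
  have hin : ∀ s ∈ Icc (0 : ℝ) 1, ‖(s : ℂ) * z‖ ≤ r := by
    intro s hs
    rw [norm_mul, Complex.norm_real, Real.norm_of_nonneg hs.1]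
    nlinarith [hs.2]
  have hder : ∀ s ∈ Icc (0 : ℝ) 1, HasDerivAt f (z * deriv g ((s : ℂ) * z)) s := by
    intro s hs
    have h1 : HasDerivAt g (deriv g ((s : ℂ) * z)) ((s : ℂ) * z) :=
      (hg.differentiableAt (isOpen_ball.mem_nhds (mem_ball_zero_iff.2 (by
        have := hin s hs
        linarith)))).hasDerivAt
    have h2 : HasDerivAt (fun s : ℝ => (s : ℂ) * z) (1 * z) s :=
      (Complex.ofRealCLM.hasDerivAt (x := s)).mul_const z
    rw [one_mul] at h2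
    have h3 := h1.scomp s h2
    rw [hf]
    rw [smul_eq_mul] at h3
    exact h3.sub_const _
  have hmain := image_norm_le_of_norm_deriv_right_lt_deriv_boundary' (f := f) (a := 0) (b := 1)
    (f' := fun s => z * deriv g ((s : ℂ) * z)) (B := fun s => K * ‖z‖ * s) (B' := fun _ => K * ‖z‖)
    (fun s hs => (hder s hs).continuousAt.continuousWithinAt)
    (fun s hs => (hder s ⟨hs.1, hs.2.le⟩).hasDerivWithinAt)
    (by rw [hf]; simp)
    (by fun_prop)
    (fun s _ => by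
      have h1 := (hasDerivAt_id s).const_mul (K * ‖z‖)
      rw [mul_one] at h1
      exact h1.hasDerivWithinAt)
    (fun s hs hfs => by
      have hs' : s ∈ Icc (0 : ℝ) 1 := ⟨hs.1, hs.2.le⟩
      have h1 := lsc_der hL hr hg hg01 (hin s hs')
      have h2 : ‖g ((s : ℂ) * z)‖ ≤ |M| + 1 := by
        have h3 : ‖g ((s : ℂ) * z)‖ ≤ ‖g ((s : ℂ) * z) - g 0‖ + ‖g 0‖ := by
          have := norm_add_le (g ((s : ℂ) * z) - g 0) (g 0)
          rwa [sub_add_cancel] at this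
        have h4 : ‖g ((s : ℂ) * z) - g 0‖ = K * ‖z‖ * s := by
          rw [hf] at hfs
          exact hfs
        have h5 : K * ‖z‖ * s ≤ 1 := by
          have h6 : K * ‖z‖ * s ≤ K * ‖z‖ * 1 := mul_le_mul_of_nonneg_left hs'.2 (by positivity)
          linarith
        have h6 := le_abs_self M
        linarith
      have h3 : CL * (1 + ‖g ((s : ℂ) * z)‖ ^ 2) ≤ CL * (1 + (|M| + 1) ^ 2) := by
        refine mul_le_mul_of_nonneg_left ?_ hCL.le
        have := pow_le_pow_left₀ (norm_nonneg _) h2 2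
        linarith
      have h4 : ‖deriv g ((s : ℂ) * z)‖ < K := by
        have h5 : ‖deriv g ((s : ℂ) * z)‖ ≤ CL * (1 + (|M| + 1) ^ 2) / r := by
          rw [le_div_iff₀ hr]
          linarith
        rw [hK]
        linarith
      rw [norm_mul, mul_comm]
      exact mul_lt_mul_of_pos_right h4 hzp)
  have h1 := hmain (x := 1) ⟨zero_le_one, le_rfl⟩
  rw [hf] at h1
  simpa using h1

end Pool.Agent.H64.MJ
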