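import Pool.Agent.H64.PC.VB4
import Pool.Agent.H64.MJ.LSC

/-!
# Module EQC: the moving preimages are equicontinuous

`BD.shift`: other base point. `eqc`: if a preimage of `X t` under `f_t^m` is near `c0` and `t` is near `0`, then there is a
preimage of `X 0` under `f_0^m` near `c0`, uniformly in `m`. PROOF. `pre_sel` at the base point `t`: `F` with values in `ℂ`, which
omits `-1 / (Q0 - Q1)`, `-1 / (Q0 - Q2)`; `lsc`.
-/

set_option autoImplicit false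

open Filter Topology Polynomial Metric Set

namespace Pool.Agent.H64.MJ

open Pool.Agent.H44.Fatou Pool.Agent.H32.BT Pool.Agent.H79.Eul Pool.Agent.H79.Par Pool.Agent.H64.PC

variable {d : ℕ} {v0 w : E d} {r : ℝ}

theorem bd_shift {q X : ℂ → ℂ} (h : BD v0 w r q X) {t1 : ℂ} (ht : ‖t1‖ < r) :
    BD (v0 + t1 • w) w (r - ‖t1‖) (fun s => q (t1 + s)) (fun s => X (t1 + s)) := by
  have hv : ∀ s : ℂ, v0 + t1 • w + s • w = v0 + (t1 + s) • w := by
    intro s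
    rw [add_assoc, ← add_smul]
  have hn : ∀ s : ℂ, ‖s‖ ≤ r - ‖t1‖ → ‖t1 + s‖ ≤ r := by
    intro s hs
    refine (norm_add_le _ _).trans ?_
    linarith
  have han : ∀ g : ℂ → ℂ, ∀ s : ℂ, AnalyticAt ℂ g (t1 + s) → AnalyticAt ℂ (fun s => g (t1 + s)) s := by
    intro g s hg
    exact AnalyticAt.fun_comp (g := g) (f := fun s : ℂ => t1 + s) hg (analyticAt_const.add analyticAt_id)
  refine ⟨by linarith, fun s hs => ?_, fun s hs => ?_, fun s hs => ?_, fun s hs => ?_, fun s hs => ?_, fun s hs => ?_⟩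
  · rw [hv]
    exact h.cop _ (hn s hs)
  · rw [hv]
    exact h.deg _ (hn s hs)
  · exact han q s (h.qan _ (hn s hs))
  · exact han X s (h.Xan _ (hn s hs))
  · rw [hv]
    exact h.nq _ (hn s hs)
  · rw [hv]
    exact h.nc _ (hn s hs)

/-- the moving preimage is never the mark -/
theorem psi_omit {q u q' : ℂ} (h : psi q u ≠ (q' : OnePoint ℂ)) : 1 + (q - q') * u ≠ 0 := by
  intro h0
  apply h
  unfold psi
  rw [pt_coe_iff (psi_ne q u)]
  linear_combination h0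

theorem eqc {Q : Fin 3 → ℂ → ℂ} {X : ℂ → ℂ} {p : ℕ} (h : BM v0 w r Q X p) {c0 : ℂ} (hc : c0 ≠ Q 0 0)
    {ε : ℝ} (hε : 0 < ε) : ∀ᶠ y in 𝓝 ((0 : ℂ), c0), ∀ m : ℕ,
      (Rf (v0 + y.1 • w))^[m] (y.2 : OnePoint ℂ) = (X y.1 : OnePoint ℂ) →
        ∃ b ∈ ball c0 ε, (Rf v0)^[m] (b : OnePoint ℂ) = (X 0 : OnePoint ℂ) := by
  have hr := (h.bd 0).hr
  have h00 : ‖(0 : ℂ)‖ ≤ r := by rw [norm_zero]; exact hr.le
  have hqc : ∀ j, ContinuousAt (Q j) 0 := fun j => ((h.bd j).qan 0 h00).continuousAt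
  have hne : ∀ i j, i ≠ j → ∀ t : ℂ, ‖t‖ ≤ r → Q i t - Q j t ≠ 0 := fun i j hij t ht =>
    sub_ne_zero.2 (h.ne i j hij t ht)
  obtain ⟨A, hA⟩ : ∃ A : ℂ → ℂ, A = fun t => -1 / (Q 0 t - Q 1 t) := ⟨_, rfl⟩
  obtain ⟨B, hB⟩ : ∃ B : ℂ → ℂ, B = fun t => -1 / (Q 0 t - Q 2 t) := ⟨_, rfl⟩
  have hAc : ContinuousAt A 0 := by
    rw [hA]
    exact continuousAt_const.div ((hqc 0).sub (hqc 1)) (hne 0 1 (by decide) 0 h00)
  have hBc : ContinuousAt B 0 := by
    rw [hB]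
    exact continuousAt_const.div ((hqc 0).sub (hqc 2)) (hne 0 2 (by decide) 0 h00)
  have hAB : ∀ t : ℂ, ‖t‖ ≤ r → B t - A t ≠ 0 := by
    intro t ht h0
    have h1 := hne 0 1 (by decide) t ht
    have h2 := hne 0 2 (by decide) t ht
    have h3 := hne 1 2 (by decide) t ht
    rw [hA, hB] at h0
    simp only at h0
    rw [div_sub_div _ _ h2 h1, div_eq_zero_iff] at h0
    rcases h0 with h0 | h0
    · apply h3
      linear_combination h0
    · exact mul_ne_zero h2 h1 h0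
  -- the value of the normalized function
  obtain ⟨G0, hG0⟩ : ∃ G0 : ℂ × ℂ → ℂ, G0 = fun y => ((y.2 - Q 0 y.1)⁻¹ - A y.1) / (B y.1 - A y.1) := ⟨_, rfl⟩
  have e1 : ContinuousAt (fun y : ℂ × ℂ => y.1) ((0 : ℂ), c0) := continuousAt_fst
  have e2 : ContinuousAt (fun y : ℂ × ℂ => Q 0 y.1) ((0 : ℂ), c0) :=
    ContinuousAt.comp (g := Q 0) (hqc 0) e1
  have e3 : ContinuousAt (fun y : ℂ × ℂ => A y.1) ((0 : ℂ), c0) := ContinuousAt.comp (g := A) hAc e1
  have e4 : ContinuousAt (fun y : ℂ × ℂ => B y.1) ((0 : ℂ), c0) := ContinuousAt.comp (g := B) hBc e1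
  have hG0c : ContinuousAt G0 ((0 : ℂ), c0) := by
    rw [hG0]
    refine ContinuousAt.div (((continuousAt_snd.sub e2).inv₀ (sub_ne_zero.2 hc)).sub e3) (e4.sub e3) ?_
    exact hAB 0 h00
  obtain ⟨x0, hx0⟩ : ∃ x0 : ℂ, x0 = (c0 - Q 0 0)⁻¹ := ⟨_, rfl⟩
  have hx0n : x0 ≠ 0 := by
    rw [hx0]
    exact inv_ne_zero (sub_ne_zero.2 hc)
  have hG00 : A 0 + (B 0 - A 0) * G0 ((0 : ℂ), c0) = x0 := by
    rw [hG0, hx0]
    simp only
    rw [mul_div_cancel₀ _ (hAB 0 h00)]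
    ring
  -- the constant
  obtain ⟨K, hK, hlsc⟩ := lsc (r := r / 4) (by linarith) (‖G0 ((0 : ℂ), c0)‖ + 1)
  -- values near `x0`
  have hnear : ∀ᶠ x in 𝓝 x0, x ≠ 0 ∧ Q 0 0 + x⁻¹ ∈ ball c0 ε := by
    have h1 : Tendsto (fun x : ℂ => Q 0 0 + x⁻¹) (𝓝 x0) (𝓝 c0) := by
      have h2 : ContinuousAt (fun x : ℂ => Q 0 0 + x⁻¹) x0 := continuousAt_const.add (continuousAt_id.inv₀ hx0n)
      have h3 : Q 0 0 + x0⁻¹ = c0 := by
        rw [hx0, inv_inv]
        ring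
      have h4 := h2.tendsto
      rwa [h3] at h4
    exact (eventually_ne_nhds hx0n).and (h1.eventually (ball_mem_nhds c0 hε))
  obtain ⟨η, hη, hηb⟩ := Metric.eventually_nhds_iff_ball.1 hnear
  -- smallness
  have s1 : Tendsto (fun y : ℂ × ℂ => ‖y.1‖) (𝓝 ((0 : ℂ), c0)) (𝓝 0) := by
    have h1 := e1.norm.tendsto
    simpa using h1
  have s2 : Tendsto (fun y : ℂ × ℂ => ‖G0 y - G0 ((0 : ℂ), c0)‖) (𝓝 ((0 : ℂ), c0)) (𝓝 0) := by
    have h1 := (hG0c.sub (continuousAt_const (y := G0 ((0 : ℂ), c0)))).norm.tendsto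
    simpa using h1
  have s3 : Tendsto (fun y : ℂ × ℂ => ‖B 0 - A 0‖ * (K * ‖y.1‖ + ‖G0 y - G0 ((0 : ℂ), c0)‖))
      (𝓝 ((0 : ℂ), c0)) (𝓝 0) := by
    have h1 := ((s1.const_mul K).add s2).const_mul ‖B 0 - A 0‖
    simpa using h1
  filter_upwards [s1.eventually (gt_mem_nhds (by linarith : (0 : ℝ) < r / 4)),
    (s1.const_mul K).eventually (gt_mem_nhds (by rw [mul_zero]; exact one_pos : K * 0 < 1)),
    s2.eventually (gt_mem_nhds one_pos), s3.eventually (gt_mem_nhds hη)] with y y1 y2 y3 y4 m hm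
  obtain ⟨t1, a⟩ := y
  simp only at y1 y2 y3 y4 hm
  have ht1 : ‖t1‖ < r := by linarith
  obtain ⟨F, hF, hF0, -, -, hland⟩ := pre_sel (bd_shift (h.bd 0) ht1) (m := m) (z0 := a) (by
    show (Rf (v0 + t1 • w))^[m] (a : OnePoint ℂ) = (X (t1 + 0) : OnePoint ℂ)
    rw [add_zero]
    exact hm)
  have hv : ∀ s : ℂ, v0 + t1 • w + s • w = v0 + (t1 + s) • w := by
    intro s
    rw [add_assoc, ← add_smul]
  have hin : ∀ s ∈ ball (0 : ℂ) (2 * (r / 4)), s ∈ ball (0 : ℂ) (r - ‖t1‖) ∧ ‖t1 + s‖ ≤ r := by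
    intro s hs
    rw [mem_ball_zero_iff] at hs ⊢
    refine ⟨by linarith, (norm_add_le _ _).trans (by linarith)⟩
  obtain ⟨g, hg⟩ : ∃ g : ℂ → ℂ, g = fun s => (F s - A (t1 + s)) / (B (t1 + s) - A (t1 + s)) := ⟨_, rfl⟩
  have hQd : ∀ j, DifferentiableOn ℂ (fun s => Q j (t1 + s)) (ball 0 (2 * (r / 4))) := by
    intro j s hs
    have h1 : DifferentiableAt ℂ (Q j) (t1 + s) := ((h.bd j).qan _ (hin s hs).2).differentiableAt
    have h2 : DifferentiableAt ℂ (fun s : ℂ => t1 + s) s := by fun_prop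
    exact (DifferentiableAt.comp (g := Q j) (f := fun s : ℂ => t1 + s) s h1 h2).differentiableWithinAt
  have hAd : DifferentiableOn ℂ (fun s => A (t1 + s)) (ball 0 (2 * (r / 4))) := by
    rw [hA]
    exact (differentiableOn_const _).div ((hQd 0).sub (hQd 1)) fun s hs => hne 0 1 (by decide) _ (hin s hs).2
  have hBd : DifferentiableOn ℂ (fun s => B (t1 + s)) (ball 0 (2 * (r / 4))) := by
    rw [hB]
    exact (differentiableOn_const _).div ((hQd 0).sub (hQd 2)) fun s hs => hne 0 2 (by decide) _ (hin s hs).2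
  have hFd : DifferentiableOn ℂ F (ball 0 (2 * (r / 4))) := hF.mono fun s hs => (hin s hs).1
  have hgd : DifferentiableOn ℂ g (ball 0 (2 * (r / 4))) := by
    rw [hg]
    exact (hFd.sub hAd).div (hBd.sub hAd) fun s hs => hAB _ (hin s hs).2
  have homit : ∀ j, ∀ s ∈ ball (0 : ℂ) (2 * (r / 4)), 1 + (Q 0 (t1 + s) - Q j (t1 + s)) * F s ≠ 0 := by
    intro j s hs
    apply psi_omit
    intro h1
    have h2 := hland s (hin s hs).1
    rw [hv] at h2
    have h3 : psi (Q 0 (t1 + s)) (F s) = (Q j (t1 + s) : OnePoint ℂ) := h1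
    rw [h3] at h2
    exact (h.bd j).nq _ (hin s hs).2 m h2
  have hg01 : ∀ s ∈ ball (0 : ℂ) (2 * (r / 4)), g s ≠ 0 ∧ g s ≠ 1 := by
    intro s hs
    have n1 := hne 0 1 (by decide) _ (hin s hs).2
    have n2 := hne 0 2 (by decide) _ (hin s hs).2
    have n3 := hAB _ (hin s hs).2
    constructor
    · intro h0
      rw [hg] at h0
      rcases div_eq_zero_iff.1 h0 with h1 | h1
      · apply homit 1 s hs
        have h2 : F s = -1 / (Q 0 (t1 + s) - Q 1 (t1 + s)) := by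
          have := sub_eq_zero.1 h1
          rw [hA] at this
          exact this
        rw [h2, mul_div_cancel₀ _ n1]
        ring
      · exact n3 h1
    · intro h0
      rw [hg] at h0
      have h1 := (div_eq_one_iff_eq n3).1 h0
      apply homit 2 s hs
      have h2 : F s = -1 / (Q 0 (t1 + s) - Q 2 (t1 + s)) := by
        have : F s = B (t1 + s) := by linear_combination h1
        rw [hB] at this
        exact this
      rw [h2, mul_div_cancel₀ _ n2]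
      ring
  have hg0 : g 0 = G0 (t1, a) := by
    rw [hg, hG0]
    simp only [add_zero]
    rw [hF0, add_zero]
  have hgM : ‖g 0‖ ≤ ‖G0 ((0 : ℂ), c0)‖ + 1 := by
    rw [hg0]
    have h1 : ‖G0 (t1, a)‖ ≤ ‖G0 (t1, a) - G0 ((0 : ℂ), c0)‖ + ‖G0 ((0 : ℂ), c0)‖ := by
      have := norm_add_le (G0 (t1, a) - G0 ((0 : ℂ), c0)) (G0 ((0 : ℂ), c0))
      rwa [sub_add_cancel] at this
    linarith
  have hL := hlsc g hgd hg01 hgM (-t1) (by rw [norm_neg]; exact y1.le) (by rw [norm_neg]; exact y2.le)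
  rw [norm_neg] at hL
  have hm1 : -t1 ∈ ball (0 : ℂ) (2 * (r / 4)) := by
    rw [mem_ball_zero_iff, norm_neg]
    linarith
  have hFv : F (-t1) = A 0 + (B 0 - A 0) * g (-t1) := by
    rw [hg]
    simp only
    rw [add_neg_cancel, mul_div_cancel₀ _ (hAB 0 h00)]
    ring
  have hxx : F (-t1) ∈ ball x0 η := by
    rw [mem_ball, dist_eq_norm, ← hG00, hFv]
    have h1 : A 0 + (B 0 - A 0) * g (-t1) - (A 0 + (B 0 - A 0) * G0 ((0 : ℂ), c0)) =
        (B 0 - A 0) * ((g (-t1) - g 0) + (G0 (t1, a) - G0 ((0 : ℂ), c0))) := by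
      rw [hg0]
      ring
    rw [h1, norm_mul]
    refine lt_of_le_of_lt ?_ y4
    refine mul_le_mul_of_nonneg_left ?_ (norm_nonneg _)
    refine (norm_add_le _ _).trans ?_
    linarith
  obtain ⟨hx1, hx2⟩ := hηb _ hxx
  refine ⟨Q 0 0 + (F (-t1))⁻¹, hx2, ?_⟩
  have h5 := hland (-t1) (hin _ hm1).1
  rw [hv, add_neg_cancel, zero_smul, add_zero] at h5
  have h6 : psi (Q 0 0) (F (-t1)) = ((Q 0 0 + (F (-t1))⁻¹ : ℂ) : OnePoint ℂ) := by
    unfold psi
    rw [pt_coe_iff (psi_ne _ _)]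
    field_simp
    ring
  rw [← h6]
  exact h5

end Pool.Agent.H64.MJ
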