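import Pool.Agent.H64.MJ.CNT
import Pool.Agent.H47.PS.RED

/-!
# Module MKS: three marked cycles and a repelling cycle of a locally maximal map
-/

set_option autoImplicit false

open Filter Topology Polynomial Metric Set

namespace Pool.Agent.H64.MJ

open Pool.Agent.H44.Fatou Pool.Agent.H32.BT Pool.Agent.H79.Eul Pool.Agent.H79.Par
open Pool.Agent.H35.EX Pool.Agent.H44.RR Pool.Agent.H56.HR Pool.Agent.H44.RC Pool.Agent.H47.RJ
open Pool.Agent.H47.NM Pool.Agent.H47.NN Pool.Agent.H44.ND Pool.Agent.H79.ES Pool.Agent.H47.PS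

variable {d : ℕ} {v : E d}

theorem nneu_of (hd : 2 ≤ d) (h : Gen d (pol v.1) (pol v.2))
    (hi : ∀ p : ℕ, 0 < p → (Rf v)^[p] OnePoint.infty ≠ OnePoint.infty) (hup : ¬ Up v) : NNeu v := by
  have hdeg : max (pol v.1).natDegree (pol v.2).natDegree = d := by rw [h.ha, h.hb, max_self]
  by_contra hN
  have h1 : ∃ p : ℕ, 0 < p ∧ ∃ x m, Cyc (pol v.1) (pol v.2) p x m ∧ ‖m‖ = 1 := by
    by_contra hno
    exact hN ⟨hi, fun p hp x m hc hm => hno ⟨p, hp, x, m, hc, hm⟩⟩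
  obtain ⟨p, hp, x, m, hc, hm⟩ := h1
  exact hup (Pool.Agent.H44.CP.neu_up hd h.cop hdeg hp hc hm)

theorem per_inf (hd : 2 ≤ d) (h : Gen d (pol v.1) (pol v.2)) (hN : NNeu v) :
    {z : ℂ | ∃ n : ℕ, 0 < n ∧ (Rf v)^[n] (z : OnePoint ℂ) = (z : OnePoint ℂ)}.Infinite := by
  have hdeg : max (pol v.1).natDegree (pol v.2).natDegree = d := by rw [h.ha, h.hb, max_self]
  intro hfin
  have key : ∀ n : ℕ, 0 < n → d ^ n + 1 ≤ hfin.toFinset.card := by
    intro n hn
    obtain ⟨s, hs, hs1⟩ := fix_card hd h.cop hdeg (n := n) (hN.1 n hn) (fun x m hc h1 => by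
        have h2 := hN.2 n hn x m hc
        rw [h1, norm_one] at h2
        exact h2 rfl)
      (fun z hz => by
        obtain ⟨x, m, hx, hc, -⟩ := nneu_cyc hN hn hz
        refine ⟨x, m, ?_, hc⟩
        have h1 := hx 0
        exact (OnePoint.coe_injective h1).symm)
    rw [← hs]
    refine Finset.card_le_card fun z hz => ?_
    rw [Set.Finite.mem_toFinset]
    exact ⟨n, hn, hs1 z hz⟩
  have h1 := key (hfin.toFinset.card + 1) (Nat.succ_pos _)
  have h2 : hfin.toFinset.card + 1 < d ^ (hfin.toFinset.card + 1) := Nat.lt_pow_self (by omega)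
  omega

theorem sink_fin (hd : 2 ≤ d) (hcop : IsCoprime (pol v.1) (pol v.2))
    (hdeg : max (pol v.1).natDegree (pol v.2).natDegree = d) :
    {z : OnePoint ℂ | ∃ n : ℕ, IsSink (Rf v) z n}.Finite := by
  have hf : Continuous (Rf v) := rat_continuous hcop
  obtain ⟨f, hfd⟩ : ∃ f, f = Rf v := ⟨_, rfl⟩
  have hfc : Continuous f := by rw [hfd]; exact hf
  have hC : {c : OnePoint ℂ | IsCrit (Rf v) c}.Finite := crit_finite hcop (by omega)
  have hsub : {z : OnePoint ℂ | ∃ n : ℕ, IsSink (Rf v) z n} ⊆ ⋃ c ∈ {c : OnePoint ℂ | IsCrit (Rf v) c},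
      {z : OnePoint ℂ | ∃ n m : ℕ, 0 < n ∧ f^[n] z = z ∧
        Tendsto (fun k : ℕ => f^[n * k] (f^[m] c)) atTop (𝓝 z)} := by
    rintro z ⟨n, hz⟩
    obtain ⟨c, hc, m, hm⟩ := sink_crit hcop (by omega) hz
    simp only [mem_iUnion]
    refine ⟨c, hc, n, m, hz.1, ?_, ?_⟩
    · rw [hfd]
      exact hz.2.1
    · rw [hfd]
      exact hm
  refine (hC.biUnion fun c _ => ?_).subset hsub
  by_cases hne : ∃ z0 : OnePoint ℂ, ∃ n m : ℕ, 0 < n ∧ f^[n] z0 = z0 ∧
      Tendsto (fun k : ℕ => f^[n * k] (f^[m] c)) atTop (𝓝 z0)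
  · obtain ⟨z0, n0, m0, hn0, hp0, ht0⟩ := hne
    refine (orb_fin hn0 hp0).subset ?_
    rintro z ⟨n, m, hn, -, ht⟩
    refine ⟨m + n0 * m0 - m0, ?_⟩
    have hj : m0 + (m + n0 * m0 - m0) = m + n0 * m0 := by
      have h1 : m0 ≤ n0 * m0 := Nat.le_mul_of_pos_left _ hn0
      omega
    have h1 : Tendsto (fun k : ℕ => f^[m + n0 * m0 - m0] (f^[n0 * k] (f^[m0] c))) atTop
        (𝓝 (f^[m + n0 * m0 - m0] z0)) := ((hfc.iterate _).tendsto z0).comp ht0
    have h2 : (fun k : ℕ => f^[m + n0 * m0 - m0] (f^[n0 * k] (f^[m0] c))) =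
        fun k : ℕ => f^[m + n0 * (k + m0)] c := by
      funext k
      rw [← Function.iterate_add_apply, ← Function.iterate_add_apply]
      congr 1
      have h3 : n0 * (k + m0) = n0 * k + n0 * m0 := Nat.mul_add _ _ _
      omega
    rw [h2] at h1
    have h3 : Tendsto (fun k : ℕ => f^[m + n0 * k] c) atTop (𝓝 (f^[m + n0 * m0 - m0] z0)) :=
      (tendsto_add_atTop_iff_nat (f := fun k : ℕ => f^[m + n0 * k] c) m0).1 h1
    have h4 : Tendsto (fun k : ℕ => n * k) atTop atTop :=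
      tendsto_id.const_mul_atTop' hn
    have h5 := h3.comp h4
    have h6 : Tendsto (fun k : ℕ => n0 * k) atTop atTop := tendsto_id.const_mul_atTop' hn0
    have h7 := ht.comp h6
    have h8 : (fun k : ℕ => f^[n * k] (f^[m] c)) ∘ (fun k : ℕ => n0 * k) =
        (fun k : ℕ => f^[m + n0 * k] c) ∘ fun k : ℕ => n * k := by
      funext k
      show f^[n * (n0 * k)] (f^[m] c) = f^[m + n0 * (n * k)] c
      rw [← Function.iterate_add_apply]
      congr 1
      ring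
    rw [h8] at h7
    exact tendsto_nhds_unique h5 h7
  · have h1 : {z : OnePoint ℂ | ∃ n m : ℕ, 0 < n ∧ f^[n] z = z ∧
        Tendsto (fun k : ℕ => f^[n * k] (f^[m] c)) atTop (𝓝 z)} = ∅ := by
      ext z
      simp only [mem_setOf_eq, mem_empty_iff_false, iff_false]
      exact fun h => hne ⟨z, h⟩
    rw [h1]
    exact finite_empty

theorem marks_ex (hd : 2 ≤ d) (h : Gen d (pol v.1) (pol v.2)) (hN : NNeu v) (c0 : ℂ) :
    ∃ (p : ℕ) (x : ℕ → ℂ) (m : ℂ) (n : Fin 3 → ℕ) (y : Fin 3 → ℕ → ℂ) (l : Fin 3 → ℂ), 0 < p ∧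
      Cyc (pol v.1) (pol v.2) p x m ∧ 1 < ‖m‖ ∧ (∀ j, 0 < n j) ∧
      (∀ j, Cyc (pol v.1) (pol v.2) (n j) (y j) (l j)) ∧ (∀ j, 1 < ‖l j‖) ∧
      (∀ i j, i ≠ j → y i 0 ≠ y j 0) ∧ (∀ j, ∀ i < n j, y j i ≠ x 0) ∧ ∀ j, c0 ≠ y j 0 := by
  have hdeg : max (pol v.1).natDegree (pol v.2).natDegree = d := by rw [h.ha, h.hb, max_self]
  have hinf := per_inf hd h hN
  obtain ⟨S, hS⟩ : ∃ S : Set ℂ, S = {z : ℂ | ∃ n : ℕ, 0 < n ∧ (Rf v)^[n] (z : OnePoint ℂ) = (z : OnePoint ℂ)} :=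
    ⟨_, rfl⟩
  rw [← hS] at hinf
  have hT := (sink_fin hd h.cop hdeg).preimage (f := ((↑) : ℂ → OnePoint ℂ)) OnePoint.coe_injective.injOn
  obtain ⟨z, hzS, hzT⟩ := (hinf.diff hT).nonempty
  rw [hS] at hzS
  obtain ⟨p, hp, hzp⟩ := hzS
  obtain ⟨x, m, hx, hc, hm⟩ := nneu_cyc hN hp hzp
  have hx0 : x 0 = z := by
    have h1 := hx 0
    exact (OnePoint.coe_injective h1).symm
  have hm1 : 1 < ‖m‖ := by
    rcases lt_or_gt_of_ne hm with h1 | h1
    · exfalso
      apply hzT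
      have h2 := cyc_sink h.cop hp hc h1
      rw [hx0] at h2
      exact ⟨p, h2⟩
    · exact h1
  have hO := (orb_fin hp hzp).preimage (f := ((↑) : ℂ → OnePoint ℂ)) OnePoint.coe_injective.injOn
  have next : ∀ F : Set ℂ, F.Finite → ∃ (n : ℕ) (y : ℕ → ℂ) (l : ℂ), 0 < n ∧
      Cyc (pol v.1) (pol v.2) n y l ∧ 1 < ‖l‖ ∧ y 0 ∉ F ∧ (∀ i < n, y i ≠ x 0) := by
    intro F hF
    obtain ⟨u, huS, huF⟩ := (hinf.diff ((hF.union hO).union hT)).nonempty
    rw [hS] at huS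
    obtain ⟨n, hn, hun⟩ := huS
    obtain ⟨y, l, hy, hcy, hl⟩ := nneu_cyc hN hn hun
    have hy0 : y 0 = u := by
      have h1 := hy 0
      exact (OnePoint.coe_injective h1).symm
    refine ⟨n, y, l, hn, hcy, ?_, ?_, ?_⟩
    · rcases lt_or_gt_of_ne hl with h1 | h1
      · exfalso
        apply huF
        right
        have h2 := cyc_sink h.cop hn hcy h1
        rw [hy0] at h2
        exact ⟨n, h2⟩
      · exact h1
    · rw [hy0]
      exact fun h1 => huF (Or.inl (Or.inl h1))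
    · intro i _ hi
      have hu' : (u : OnePoint ℂ) ∉ Orb (Rf v) (z : OnePoint ℂ) := fun h1 => huF (Or.inl (Or.inr h1))
      apply orb_dis hn hun hu' i
      rw [hy i, hi, hx0]
      exact orb_self _ _
  obtain ⟨n0, y0, l0, a0, b0, c0', d0, e0⟩ := next {c0} (finite_singleton c0)
  obtain ⟨n1, y1, l1, a1, b1, c1, d1, e1⟩ := next {c0, y0 0} ((finite_singleton _).insert _)
  obtain ⟨n2, y2, l2, a2, b2, c2, d2, e2⟩ := next {c0, y0 0, y1 0} (((finite_singleton _).insert _).insert _)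
  have q0 : c0 ≠ y0 0 := fun h1 => d0 (by rw [← h1]; exact rfl)
  have q1 : c0 ≠ y1 0 := fun h1 => d1 (Or.inl h1.symm)
  have q2 : c0 ≠ y2 0 := fun h1 => d2 (Or.inl h1.symm)
  have r1 : y0 0 ≠ y1 0 := fun h1 => d1 (Or.inr h1.symm)
  have r2 : y0 0 ≠ y2 0 := fun h1 => d2 (Or.inr (Or.inl h1.symm))
  have r3 : y1 0 ≠ y2 0 := fun h1 => d2 (Or.inr (Or.inr h1.symm))
  refine ⟨p, x, m, ![n0, n1, n2], ![y0, y1, y2], ![l0, l1, l2], hp, hc, hm1, ?_, ?_, ?_, ?_, ?_, ?_⟩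
  · intro j
    fin_cases j
    · exact a0
    · exact a1
    · exact a2
  · intro j
    fin_cases j
    · exact b0
    · exact b1
    · exact b2
  · intro j
    fin_cases j
    · exact c0'
    · exact c1
    · exact c2
  · intro i j hij
    fin_cases i <;> fin_cases j
    · exact absurd rfl hij
    · exact r1
    · exact r2
    · exact r1.symm
    · exact absurd rfl hij
    · exact r3
    · exact r2.symm
    · exact r3.symm
    · exact absurd rfl hij
  · intro j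
    fin_cases j
    · exact e0
    · exact e1
    · exact e2
  · intro j
    fin_cases j
    · exact q0
    · exact q1
    · exact q2

end Pool.Agent.H64.MJ
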