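import Pool.Agent.H64.PC.VB6
import Pool.Agent.H64.MJ.MKS
import Pool.Agent.H64.MJ.EQC

/-!
# Module CJS: repelling cycles are in the Julia set; the moving data
-/

set_option autoImplicit false

open Filter Topology Polynomial Metric Set

namespace Pool.Agent.H64.MJ

open Pool.Agent.H44.Fatou Pool.Agent.H32.BT Pool.Agent.H79.Eul Pool.Agent.H79.Par
open Pool.Agent.H35.EX Pool.Agent.H44.RR Pool.Agent.H56.HR Pool.Agent.H44.RC Pool.Agent.H47.RJ
open Pool.Agent.H47.NM Pool.Agent.H47.NN Pool.Agent.H44.ND Pool.Agent.H79.ES Pool.Agent.H64.PC Pool.Agent.H44.NP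

variable {d : ℕ} {v : E d}

/-- an expanding fixed point is not a point of equicontinuity -/
theorem exp_neq {f : OnePoint ℂ → OnePoint ℂ} {a : ℂ} {N : ℕ} (ha : f^[N] (a : OnePoint ℂ) = (a : OnePoint ℂ))
    {q : ℝ} (hq : 1 < q) (hexp : ∀ᶠ y in 𝓝 (a : OnePoint ℂ),
      q * chord (a : OnePoint ℂ) y ≤ chord (f^[N] (a : OnePoint ℂ)) (f^[N] y)) :
    ¬ EqAt f (a : OnePoint ℂ) := by
  intro hE
  obtain ⟨U, hU, hUo, haU⟩ := _root_.eventually_nhds_iff.1 hexp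
  obtain ⟨ε, hε, hεU⟩ : ∃ ε : ℝ, 0 < ε ∧ ∀ x, chord (a : OnePoint ℂ) x < ε → x ∈ U := by
    by_contra hcon
    push Not at hcon
    have hpos : ∀ k : ℕ, (0 : ℝ) < 1 / ((k : ℝ) + 1) := fun k => by positivity
    choose x hx1 hx2 using fun k : ℕ => hcon (1 / ((k : ℝ) + 1)) (hpos k)
    obtain ⟨y, -, σ, hσ, hlim⟩ := isCompact_univ.tendsto_subseq (x := x) fun _ => mem_univ _
    have h1 : Tendsto (fun k => chord (a : OnePoint ℂ) (x (σ k))) atTop (𝓝 (chord (a : OnePoint ℂ) y)) :=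
      (chord_cont.comp (Continuous.prodMk continuous_const continuous_id)).continuousAt.tendsto.comp hlim
    have h2 : Tendsto (fun k => chord (a : OnePoint ℂ) (x (σ k))) atTop (𝓝 0) := by
      have h3 : Tendsto (fun k : ℕ => 1 / (((σ k : ℕ) : ℝ) + 1)) atTop (𝓝 0) :=
        tendsto_one_div_add_atTop_nhds_zero_nat.comp hσ.tendsto_atTop
      exact squeeze_zero (fun k => chord_nn _ _) (fun k => (hx1 (σ k)).le) h3
    have h3 := tendsto_nhds_unique h1 h2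
    have h4 : (a : OnePoint ℂ) = y := chord_eqz h3
    have h5 := hlim.eventually (hUo.mem_nhds (h4 ▸ haU))
    obtain ⟨k, hk⟩ := h5.exists
    exact hx2 (σ k) hk
  have h1 := hE ε hε
  have h2 : ∃ y : OnePoint ℂ, y ≠ (a : OnePoint ℂ) ∧ ∀ n : ℕ, chord (f^[n] (a : OnePoint ℂ)) (f^[n] y) < ε := by
    rw [OnePoint.nhds_coe_eq, eventually_map] at h1
    have h3 : ∀ᶠ z : ℂ in 𝓝[≠] a, ∀ n : ℕ, chord (f^[n] (a : OnePoint ℂ)) (f^[n] (z : OnePoint ℂ)) < ε :=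
      h1.filter_mono nhdsWithin_le_nhds
    obtain ⟨z, hz1, hz2⟩ := (h3.and self_mem_nhdsWithin).exists
    exact ⟨(z : OnePoint ℂ), fun h4 => hz2 (OnePoint.coe_injective h4), hz1⟩
  obtain ⟨y, hya, hy⟩ := h2
  have hper : ∀ k : ℕ, f^[N * k] (a : OnePoint ℂ) = (a : OnePoint ℂ) := by
    intro k
    rw [Function.iterate_mul]
    exact Function.iterate_fixed ha k
  have hgrow : ∀ k : ℕ, q ^ k * chord (a : OnePoint ℂ) y ≤ chord (a : OnePoint ℂ) (f^[N * k] y) := by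
    intro k
    induction k with
    | zero => simp
    | succ k ih =>
      have h3 : f^[N * k] y ∈ U := by
        apply hεU
        have h4 := hy (N * k)
        rwa [hper k] at h4
      have h4 := hU _ h3
      rw [ha, ← Function.iterate_add_apply] at h4
      rw [show N * (k + 1) = N + N * k by ring]
      refine le_trans ?_ h4
      rw [pow_succ, mul_comm (q ^ k) q, mul_assoc]
      exact mul_le_mul_of_nonneg_left ih (by linarith)
  have hpos : 0 < chord (a : OnePoint ℂ) y := chord_pos hya.symm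
  obtain ⟨k, hk⟩ := pow_unbounded_of_one_lt (ε / chord (a : OnePoint ℂ) y) hq
  rw [div_lt_iff₀ hpos] at hk
  have h3 := hgrow k
  have h4 := hy (N * k)
  rw [hper k] at h4
  linarith

theorem cyc_js (hcop : IsCoprime (pol v.1) (pol v.2)) {p : ℕ} (hp : 0 < p) {x : ℕ → ℂ} {m : ℂ}
    (hc : Cyc (pol v.1) (pol v.2) p x m) (hm : 1 < ‖m‖) : (x 0 : OnePoint ℂ) ∈ JS (Rf v) := by
  obtain ⟨-, hinv, N, q, hq, hN⟩ := exp_cyc hp hc hm
  have hf : Continuous (Rf v) := rat_continuous hcop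
  obtain ⟨K, hK⟩ : ∃ K : Set (OnePoint ℂ), K = {y | ∃ i < p, (x i : OnePoint ℂ) = y} := ⟨_, rfl⟩
  rw [← hK] at hinv hN
  have haK : (x 0 : OnePoint ℂ) ∈ K := by
    rw [hK]
    exact ⟨0, hp, rfl⟩
  have hKi : ∀ n : ℕ, (Rf v)^[n] (x 0 : OnePoint ℂ) ∈ K := fun n => hinv.iterate n haK
  have hstep : ∀ j : ℕ, ∀ᶠ y in 𝓝 (x 0 : OnePoint ℂ),
      q ^ j * chord (x 0 : OnePoint ℂ) y ≤ chord ((Rf v)^[N * j] (x 0 : OnePoint ℂ)) ((Rf v)^[N * j] y) := by
    intro j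
    induction j with
    | zero =>
      filter_upwards with y
      simp
    | succ j ih =>
      have h1 := (hf.iterate (N * j)).continuousAt.eventually (hN _ (hKi (N * j)))
      filter_upwards [ih, h1] with y h2 h3
      rw [← Function.iterate_add_apply, ← Function.iterate_add_apply] at h3
      rw [show N * (j + 1) = N + N * j by ring]
      refine le_trans ?_ h3
      rw [pow_succ, mul_comm (q ^ j) q, mul_assoc]
      exact mul_le_mul_of_nonneg_left h2 (by linarith)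
  have hper : (Rf v)^[N * p] (x 0 : OnePoint ℂ) = (x 0 : OnePoint ℂ) := by
    rw [Nat.mul_comm, Function.iterate_mul]
    exact Function.iterate_fixed (cyc_per hc) N
  have h1 : ¬ EqAt (Rf v) (x 0 : OnePoint ℂ) :=
    exp_neq hper (one_lt_pow₀ hq (by omega)) (hstep p)
  exact fun h2 => h1 (interior_subset h2)

/-- the moving data -/
theorem bm_ex (hd : 2 ≤ d) {v0 : E d} (hcop : IsCoprime (pol v0.1) (pol v0.2))
    (hdeg : max (pol v0.1).natDegree (pol v0.2).natDegree = d) (hup : ¬ Up v0) {p : ℕ} (hp : 0 < p)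
    {x : ℕ → ℂ} {m : ℂ} (hc : Cyc (pol v0.1) (pol v0.2) p x m) (hm : 1 < ‖m‖)
    {n : Fin 3 → ℕ} {y : Fin 3 → ℕ → ℂ} {l : Fin 3 → ℂ} (hn : ∀ j, 0 < n j)
    (hy : ∀ j, Cyc (pol v0.1) (pol v0.2) (n j) (y j) (l j)) (hl' : ∀ j, 1 < ‖l j‖)
    (hyy : ∀ i j, i ≠ j → y i 0 ≠ y j 0) (hyx : ∀ j, ∀ i < n j, y j i ≠ x 0) (w : E d) :
    ∃ (r : ℝ) (Q : Fin 3 → ℂ → ℂ) (X : ℂ → ℂ), BM v0 w r Q X p ∧ X 0 = x 0 ∧ (∀ j, Q j 0 = y j 0) ∧
      (∀ t : ℂ, ‖t‖ ≤ r → (X t : OnePoint ℂ) ∈ JS (Rf (v0 + t • w))) ∧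
      ∀ j, ∀ t : ℂ, ‖t‖ ≤ r → (Q j t : OnePoint ℂ) ∈ JS (Rf (v0 + t • w)) := by
  have hl : ∀ j, l j ≠ 1 := by
    intro j h1
    have h2 := hl' j
    rw [h1, norm_one] at h2
    exact lt_irrefl _ h2
  have hm1 : m ≠ 1 := by
    intro h1
    rw [h1, norm_one] at hm
    exact lt_irrefl _ hm
  obtain ⟨X, hX0, hX⟩ := cyc_mv w hc hm1
  choose Y hY0 hY using fun j => cyc_mv w (hy j) (hl j)
  have hXc : ContinuousAt X 0 := hX.self_of_nhds.1.continuousAt
  have hYc : ∀ j, ContinuousAt (Y j) 0 := fun j => (hY j).self_of_nhds.1.continuousAt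
  have hlim : Tendsto (fun t : ℂ => v0 + t • w) (𝓝 0) (𝓝 v0) := by
    have h2 : Continuous fun t : ℂ => v0 + t • w := by fun_prop
    have h3 := h2.tendsto 0
    rwa [zero_smul, add_zero] at h3
  have hnear := hlim.eventually (nup_near hd hcop hdeg hup)
  have hmu : ∀ᶠ t in 𝓝 (0 : ℂ), 1 < ‖mu p (v0 + t • w, X t)‖ := by
    obtain ⟨h1, h2, h3⟩ := cyc_wi hc
    have h4 := (mu_an p h1).continuousAt.tendsto
    rw [h3] at h4
    have h5 : Tendsto (fun t : ℂ => ((v0 + t • w, X t) : E d × ℂ)) (𝓝 0) (𝓝 (v0, x 0)) := by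
      have h6 := hlim.prodMk_nhds hXc.tendsto
      rwa [hX0] at h6
    exact (h4.comp h5).norm.eventually (lt_mem_nhds hm)
  have hmuY : ∀ j, ∀ᶠ t in 𝓝 (0 : ℂ), 1 < ‖mu (n j) (v0 + t • w, Y j t)‖ := by
    intro j
    obtain ⟨h1, h2, h3⟩ := cyc_wi (hy j)
    have h4 := (mu_an (n j) h1).continuousAt.tendsto
    rw [h3] at h4
    have h5 : Tendsto (fun t : ℂ => ((v0 + t • w, Y j t) : E d × ℂ)) (𝓝 0) (𝓝 (v0, y j 0)) := by
      have h6 := hlim.prodMk_nhds (hYc j).tendsto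
      rwa [hY0 j] at h6
    exact (h4.comp h5).norm.eventually (lt_mem_nhds (hl' j))
  have hnq : ∀ j, ∀ᶠ t in 𝓝 (0 : ℂ), ∀ k : ℕ,
      (Rf (v0 + t • w))^[k] (Y j t : OnePoint ℂ) ≠ (X t : OnePoint ℂ) := fun j =>
    mark_ne (hn j) (hy j) (hY0 j) (hYc j) hXc (fun i hi => by rw [hX0]; exact hyx j i hi)
      ((hY j).mono fun t ht => ht.2)
  have hne : ∀ i j, i ≠ j → ∀ᶠ t in 𝓝 (0 : ℂ), Y i t ≠ Y j t := by
    intro i j hij
    have h1 : Tendsto (fun t => Y i t - Y j t) (𝓝 0) (𝓝 (Y i 0 - Y j 0)) := (hYc i).sub (hYc j)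
    have h2 : Y i 0 - Y j 0 ≠ 0 := by
      rw [hY0, hY0]
      exact sub_ne_zero.2 (hyy i j hij)
    filter_upwards [h1.eventually_ne h2] with t ht
    exact sub_ne_zero.1 ht
  have hall : ∀ᶠ t in 𝓝 (0 : ℂ), (AnalyticAt ℂ X t ∧
      (v0 + t • w, X t) ∈ (Gp p : Set (E d × ℂ)) ∧ wi p (v0 + t • w, X t) = X t) ∧
      ((IsCoprime (pol (v0 + t • w).1) (pol (v0 + t • w).2) ∧
        max (pol (v0 + t • w).1).natDegree (pol (v0 + t • w).2).natDegree = d) ∧ ¬ Up (v0 + t • w)) ∧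
      1 < ‖mu p (v0 + t • w, X t)‖ ∧
      (∀ j, AnalyticAt ℂ (Y j) t ∧
        ((v0 + t • w, Y j t) ∈ (Gp (n j) : Set (E d × ℂ)) ∧ wi (n j) (v0 + t • w, Y j t) = Y j t) ∧
        1 < ‖mu (n j) (v0 + t • w, Y j t)‖) ∧
      (∀ j, ∀ k : ℕ, (Rf (v0 + t • w))^[k] (Y j t : OnePoint ℂ) ≠ (X t : OnePoint ℂ)) ∧
      ∀ i j, i ≠ j → Y i t ≠ Y j t := by
    refine hX.and (hnear.and (hmu.and (Filter.Eventually.and ?_ (Filter.Eventually.and ?_ ?_))))
    · rw [Filter.eventually_all]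
      intro j
      filter_upwards [hY j, hmuY j] with t ht ht'
      exact ⟨ht.1, ht.2, ht'⟩
    · rw [Filter.eventually_all]
      exact hnq
    · rw [Filter.eventually_all]
      intro i
      rw [Filter.eventually_all]
      intro j
      by_cases hij : i = j
      · exact Filter.Eventually.of_forall fun t h => absurd hij h
      · filter_upwards [hne i j hij] with t ht _
        exact ht
  obtain ⟨ε, hε, hball⟩ := Metric.eventually_nhds_iff_ball.1 hall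
  have hin : ∀ t : ℂ, ‖t‖ ≤ ε / 2 → t ∈ ball (0 : ℂ) ε := fun t ht =>
    mem_ball_zero_iff.2 (by linarith)
  refine ⟨ε / 2, Y, X, ?_, hX0, hY0, fun t ht => ?_, fun j t ht => ?_⟩
  · refine ⟨fun j => ⟨by linarith, fun t ht => ?_, fun t ht => ?_, fun t ht => ?_, fun t ht => ?_,
      fun t ht => ?_, fun t ht c hcr k => ?_⟩, fun i j hij t ht => ?_, hp, fun t ht => ?_⟩
    · exact (hball t (hin t ht)).2.1.1.1
    · exact (hball t (hin t ht)).2.1.1.2
    · exact ((hball t (hin t ht)).2.2.2.1 j).1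
    · exact (hball t (hin t ht)).1.1
    · exact (hball t (hin t ht)).2.2.2.2.1 j
    · have h1 := hball t (hin t ht)
      exact nland hd h1.2.1.1.1 h1.2.1.1.2 h1.2.1.2 hp (wi_cyc h1.1.2.1 h1.1.2.2) h1.2.2.1 hcr k
    · exact (hball t (hin t ht)).2.2.2.2.2 i j hij
    · have h1 := hball t (hin t ht)
      have h2 := cyc_per (wi_cyc h1.1.2.1 h1.1.2.2)
      exact h2
  · have h1 := hball t (hin t ht)
    exact cyc_js h1.2.1.1.1 hp (wi_cyc h1.1.2.1 h1.1.2.2) h1.2.2.1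
  · have h1 := hball t (hin t ht)
    obtain ⟨-, h2, h3⟩ := h1.2.2.2.1 j
    exact cyc_js h1.2.1.1.1 (hn j) (wi_cyc h2.1 h2.2) h3

end Pool.Agent.H64.MJ
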