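import Pool.Agent.H84.TE.LAN3
import Pool.Agent.H47.RJ.M3M

/-!
# Module LIP: Landau's theorem for three moving omitted values, uniform on a smaller disc; Lipschitz bounds

`lan3x` is `lan3` (H84/TE/LAN3) with the constant written out; it is continuous in the centre: `lan3u`. `lip_ch`: the chordal
Lipschitz bound (the proof of the private lemma `m3_lip` of H47/RJ/M3M on a disc). `lip3`: both together.
-/

set_option autoImplicit false

open Metric Set Filter Topology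

namespace Pool.Agent.H64.MJ

open Pool.Agent.H91.CS

/-- the estimate at the point -/
private theorem lan_est {a0 a2 b0 b2 a0' a2' b0' b2' R S R' S' κ κ' h h' : ℂ} {CL r A : ℝ} (hr : 0 < r) (hCL : 0 < CL)
    (hA0 : ‖a0‖ + ‖b0‖ ≤ A) (hA2 : ‖a2‖ + ‖b2‖ ≤ A) (hA0' : ‖a0'‖ + ‖b0'‖ ≤ A) (hA2' : ‖a2'‖ + ‖b2'‖ ≤ A)
    (hκ : κ ≠ 0) (hD : a0 * b2 - a2 * b0 ≠ 0) (hh : h * (b2 * R - a2 * S) = κ * (b0 * R - a0 * S))
    (hh' : r * ‖h'‖ ≤ CL * (1 + ‖h‖ ^ 2))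
    (hd : h' * (b2 * R - a2 * S) ^ 2 = (κ' * (b0 * R - a0 * S) + κ * ((b0' * R + b0 * R') - (a0' * S + a0 * S'))) *
      (b2 * R - a2 * S) - κ * (b0 * R - a0 * S) * ((b2' * R + b2 * R') - (a2' * S + a2 * S'))) :
    ‖R' * S - R * S'‖ ≤ 2 * ((CL / r) * (1 + ‖κ‖ ^ 2) * A ^ 2 + ‖κ'‖ * A ^ 2 + 2 * ‖κ‖ * A ^ 2) /
      (‖κ‖ * ‖a0 * b2 - a2 * b0‖) * (‖R‖ ^ 2 + ‖S‖ ^ 2) := by
  have hA : 0 ≤ A := le_trans (by positivity) hA0
  obtain ⟨T, hT⟩ : ∃ T : ℝ, T = ‖R‖ + ‖S‖ := ⟨_, rfl⟩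
  have hT0 : 0 ≤ T := by rw [hT]; positivity
  have hlin : ∀ u v : ℂ, ‖u‖ + ‖v‖ ≤ A → ‖v * R - u * S‖ ≤ A * T := by
    intro u v huv
    refine (norm_sub_le _ _).trans ?_
    rw [norm_mul, norm_mul, hT]
    nlinarith [norm_nonneg u, norm_nonneg v, norm_nonneg R, norm_nonneg S, mul_nonneg (norm_nonneg u) (norm_nonneg R),
      mul_nonneg (norm_nonneg v) (norm_nonneg S)]
  have hL0 := hlin a0 b0 hA0
  have hL2 := hlin a2 b2 hA2
  have hE0 := hlin a0' b0' hA0'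
  have hE2 := hlin a2' b2' hA2'
  have key : κ * (a0 * b2 - a2 * b0) * (R' * S - R * S') = h' * (b2 * R - a2 * S) ^ 2 -
      κ' * (b0 * R - a0 * S) * (b2 * R - a2 * S) -
      κ * ((b0' * R - a0' * S) * (b2 * R - a2 * S) - (b0 * R - a0 * S) * (b2' * R - a2' * S)) := by
    rw [hd]
    ring
  generalize b2 * R - a2 * S = L2 at *
  generalize b0 * R - a0 * S = L0 at *
  generalize b0' * R - a0' * S = E0 at *
  generalize b2' * R - a2' * S = E2 at *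
  have h1 : ‖h'‖ * ‖L2‖ ^ 2 ≤ (CL / r) * (1 + ‖κ‖ ^ 2) * A ^ 2 * T ^ 2 := by
    have h2 : ‖h'‖ ≤ (CL / r) * (1 + ‖h‖ ^ 2) := by
      rw [div_mul_eq_mul_div, le_div_iff₀ hr, mul_comm]
      exact hh'
    have h3 : ‖h‖ * ‖L2‖ = ‖κ‖ * ‖L0‖ := by rw [← norm_mul, hh, norm_mul]
    have h4 : (1 + ‖h‖ ^ 2) * ‖L2‖ ^ 2 = ‖L2‖ ^ 2 + ‖κ‖ ^ 2 * ‖L0‖ ^ 2 := by
      rw [add_mul, one_mul, ← mul_pow, h3, mul_pow]
    have h5 : ‖L2‖ ^ 2 ≤ (A * T) ^ 2 := pow_le_pow_left₀ (norm_nonneg _) hL2 2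
    have h6 : ‖L0‖ ^ 2 ≤ (A * T) ^ 2 := pow_le_pow_left₀ (norm_nonneg _) hL0 2
    calc ‖h'‖ * ‖L2‖ ^ 2 ≤ (CL / r) * (1 + ‖h‖ ^ 2) * ‖L2‖ ^ 2 := mul_le_mul_of_nonneg_right h2 (by positivity)
      _ = (CL / r) * (‖L2‖ ^ 2 + ‖κ‖ ^ 2 * ‖L0‖ ^ 2) := by rw [mul_assoc, h4]
      _ ≤ (CL / r) * ((A * T) ^ 2 + ‖κ‖ ^ 2 * (A * T) ^ 2) := by
          refine mul_le_mul_of_nonneg_left (add_le_add h5 (mul_le_mul_of_nonneg_left h6 (by positivity))) (by positivity)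
      _ = _ := by ring
  have h7 : ‖κ' * L0 * L2‖ ≤ ‖κ'‖ * A ^ 2 * T ^ 2 := by
    rw [norm_mul, norm_mul]
    calc ‖κ'‖ * ‖L0‖ * ‖L2‖ ≤ ‖κ'‖ * (A * T) * (A * T) := by gcongr
      _ = _ := by ring
  have h8 : ‖κ * (E0 * L2 - L0 * E2)‖ ≤ 2 * ‖κ‖ * A ^ 2 * T ^ 2 := by
    rw [norm_mul]
    have h9 : ‖E0 * L2 - L0 * E2‖ ≤ (A * T) * (A * T) + (A * T) * (A * T) := by
      refine (norm_sub_le _ _).trans ?_
      rw [norm_mul, norm_mul]
      gcongr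
    calc ‖κ‖ * ‖E0 * L2 - L0 * E2‖ ≤ ‖κ‖ * ((A * T) * (A * T) + (A * T) * (A * T)) :=
          mul_le_mul_of_nonneg_left h9 (norm_nonneg _)
      _ = _ := by ring
  have h10 : ‖κ‖ * ‖a0 * b2 - a2 * b0‖ * ‖R' * S - R * S'‖ ≤
      ((CL / r) * (1 + ‖κ‖ ^ 2) * A ^ 2 + ‖κ'‖ * A ^ 2 + 2 * ‖κ‖ * A ^ 2) * T ^ 2 := by
    rw [← norm_mul, ← norm_mul, key]
    refine (norm_sub_le _ _).trans ?_
    have h11 := norm_sub_le (h' * L2 ^ 2) (κ' * L0 * L2)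
    rw [norm_mul h', norm_pow] at h11
    linarith
  have hpos : 0 < ‖κ‖ * ‖a0 * b2 - a2 * b0‖ := mul_pos (norm_pos_iff.2 hκ) (norm_pos_iff.2 hD)
  have hT2 : T ^ 2 ≤ 2 * (‖R‖ ^ 2 + ‖S‖ ^ 2) := by
    rw [hT]
    nlinarith [sq_nonneg (‖R‖ - ‖S‖)]
  rw [div_mul_eq_mul_div, le_div_iff₀ hpos, mul_comm]
  refine h10.trans ?_
  have hM : 0 ≤ (CL / r) * (1 + ‖κ‖ ^ 2) * A ^ 2 + ‖κ'‖ * A ^ 2 + 2 * ‖κ‖ * A ^ 2 := by positivity
  nlinarith [mul_le_mul_of_nonneg_left hT2 hM]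

/-- the constant -/
noncomputable def cst (CL r : ℝ) (α β : Fin 3 → ℂ → ℂ) (κ : ℂ → ℂ) (x : ℂ) : ℝ :=
  2 * ((CL / r) * (1 + ‖κ x‖ ^ 2) * ((‖α 0 x‖ + ‖β 0 x‖) + (‖α 2 x‖ + ‖β 2 x‖) + (‖deriv (α 0) x‖ + ‖deriv (β 0) x‖) +
      (‖deriv (α 2) x‖ + ‖deriv (β 2) x‖)) ^ 2 + ‖deriv κ x‖ * ((‖α 0 x‖ + ‖β 0 x‖) + (‖α 2 x‖ + ‖β 2 x‖) +
      (‖deriv (α 0) x‖ + ‖deriv (β 0) x‖) + (‖deriv (α 2) x‖ + ‖deriv (β 2) x‖)) ^ 2 + 2 * ‖κ x‖ *
      ((‖α 0 x‖ + ‖β 0 x‖) + (‖α 2 x‖ + ‖β 2 x‖) + (‖deriv (α 0) x‖ + ‖deriv (β 0) x‖) +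
      (‖deriv (α 2) x‖ + ‖deriv (β 2) x‖)) ^ 2) / (‖κ x‖ * ‖α 0 x * β 2 x - α 2 x * β 0 x‖)

/-- the fourth coefficient -/
noncomputable def kp (α β : Fin 3 → ℂ → ℂ) (z : ℂ) : ℂ :=
  -(α 1 z * β 2 z - α 2 z * β 1 z) / (α 0 z * β 1 z - α 1 z * β 0 z)

theorem lan3x {CL : ℝ} (hCL : 0 < CL) (hlan : ∀ g : ℂ → ℂ, DifferentiableOn ℂ g (ball 0 1) →
    (∀ z ∈ ball (0 : ℂ) 1, g z ≠ 0 ∧ g z ≠ 1) → ‖deriv g 0‖ ≤ CL * (1 + ‖g 0‖ ^ 2))
    {x : ℂ} {r : ℝ} (hr : 0 < r) {α β : Fin 3 → ℂ → ℂ}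
    (hα : ∀ i, DifferentiableOn ℂ (α i) (ball x r)) (hβ : ∀ i, DifferentiableOn ℂ (β i) (ball x r))
    (hD : ∀ i j, i ≠ j → ∀ z ∈ ball x r, α i z * β j z - α j z * β i z ≠ 0) :
    ∀ R S : ℂ → ℂ, DifferentiableOn ℂ R (ball x r) → DifferentiableOn ℂ S (ball x r) →
      (∀ i, ∀ z ∈ ball x r, β i z * R z - α i z * S z ≠ 0) →
      ‖deriv R x * S x - R x * deriv S x‖ ≤ cst CL r α β (kp α β) x * (‖R x‖ ^ 2 + ‖S x‖ ^ 2) := by
  have hx : x ∈ ball x r := mem_ball_self hr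
  have hnh : ball x r ∈ 𝓝 x := isOpen_ball.mem_nhds hx
  unfold cst
  obtain ⟨κ, hκ⟩ : ∃ κ : ℂ → ℂ, κ = kp α β := ⟨_, rfl⟩
  rw [← hκ]
  have hκ' : κ = fun z => -(α 1 z * β 2 z - α 2 z * β 1 z) / (α 0 z * β 1 z - α 1 z * β 0 z) := hκ
  clear hκ
  have hκ := hκ'
  clear hκ'
  have hκd : DifferentiableOn ℂ κ (ball x r) := by
    rw [hκ]
    refine DifferentiableOn.div ?_ ?_ (fun z hz => hD 0 1 (by decide) z hz)
    · exact (((hα 1).mul (hβ 2)).sub ((hα 2).mul (hβ 1))).neg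
    · exact ((hα 0).mul (hβ 1)).sub ((hα 1).mul (hβ 0))
  have hκ0 : ∀ z ∈ ball x r, κ z ≠ 0 := by
    intro z hz
    rw [hκ]
    exact div_ne_zero (neg_ne_zero.2 (hD 1 2 (by decide) z hz)) (hD 0 1 (by decide) z hz)
  obtain ⟨A, hA⟩ : ∃ A : ℝ, A = (‖α 0 x‖ + ‖β 0 x‖) + (‖α 2 x‖ + ‖β 2 x‖) + (‖deriv (α 0) x‖ + ‖deriv (β 0) x‖) +
      (‖deriv (α 2) x‖ + ‖deriv (β 2) x‖) := ⟨_, rfl⟩
  rw [← hA]
  intro R S hR hS hL
  have n1 := norm_nonneg (α 0 x)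
  have n2 := norm_nonneg (β 0 x)
  have n3 := norm_nonneg (α 2 x)
  have n4 := norm_nonneg (β 2 x)
  have n5 := norm_nonneg (deriv (α 0) x)
  have n6 := norm_nonneg (deriv (β 0) x)
  have n7 := norm_nonneg (deriv (α 2) x)
  have n8 := norm_nonneg (deriv (β 2) x)
  have dα : ∀ i, HasDerivAt (α i) (deriv (α i) x) x := fun i => ((hα i).differentiableAt hnh).hasDerivAt
  have dβ : ∀ i, HasDerivAt (β i) (deriv (β i) x) x := fun i => ((hβ i).differentiableAt hnh).hasDerivAt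
  have dR : HasDerivAt R (deriv R x) x := (hR.differentiableAt hnh).hasDerivAt
  have dS : HasDerivAt S (deriv S x) x := (hS.differentiableAt hnh).hasDerivAt
  have dκ : HasDerivAt κ (deriv κ x) x := (hκd.differentiableAt hnh).hasDerivAt
  obtain ⟨h, hh⟩ : ∃ h : ℂ → ℂ, h = fun z => κ z * (β 0 z * R z - α 0 z * S z) / (β 2 z * R z - α 2 z * S z) := ⟨_, rfl⟩
  have hhd : DifferentiableOn ℂ h (ball x r) := by
    rw [hh]
    refine DifferentiableOn.div ?_ ?_ (fun z hz => hL 2 z hz)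
    · exact hκd.mul (((hβ 0).mul hR).sub ((hα 0).mul hS))
    · exact ((hβ 2).mul hR).sub ((hα 2).mul hS)
  have hh0 : ∀ z ∈ ball x r, h z ≠ 0 ∧ h z ≠ 1 := by
    intro z hz
    have hD01 := hD 0 1 (by decide) z hz
    constructor
    · rw [hh]
      exact div_ne_zero (mul_ne_zero (hκ0 z hz) (hL 0 z hz)) (hL 2 z hz)
    · intro h1
      rw [hh] at h1
      have h2 : κ z * (β 0 z * R z - α 0 z * S z) = β 2 z * R z - α 2 z * S z := by
        rwa [div_eq_one_iff_eq (hL 2 z hz)] at h1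
      have h3 : κ z * (α 0 z * β 1 z - α 1 z * β 0 z) = -(α 1 z * β 2 z - α 2 z * β 1 z) := by
        rw [hκ]
        exact div_mul_cancel₀ _ hD01
      have h4 : (β 1 z * R z - α 1 z * S z) * (α 2 z * β 0 z - α 0 z * β 2 z) = 0 := by
        linear_combination (α 0 z * β 1 z - α 1 z * β 0 z) * h2 - (β 0 z * R z - α 0 z * S z) * h3
      rcases mul_eq_zero.1 h4 with h5 | h5
      · exact hL 1 z hz h5
      · exact hD 2 0 (by decide) z hz h5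
  have hdl : r * ‖deriv h x‖ ≤ CL * (1 + ‖h x‖ ^ 2) := by
    have hmap : ∀ z ∈ ball (0 : ℂ) 1, x + (r : ℂ) * z ∈ ball x r := by
      intro z hz
      rw [mem_ball_zero_iff] at hz
      rw [mem_ball, dist_eq_norm, add_sub_cancel_left, norm_mul, Complex.norm_real, Real.norm_of_nonneg hr.le]
      calc r * ‖z‖ < r * 1 := mul_lt_mul_of_pos_left hz hr
        _ = r := mul_one r
    have h1 := hlan (fun z => h (x + (r : ℂ) * z)) (by
      refine DifferentiableOn.comp hhd ?_ hmap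
      fun_prop) (fun z hz => hh0 _ (hmap z hz))
    have h2 : HasDerivAt (fun z : ℂ => h (x + (r : ℂ) * z)) (deriv h x * (r : ℂ)) 0 := by
      have h3 : HasDerivAt h (deriv h x) (x + (r : ℂ) * 0) := by
        rw [mul_zero, add_zero]
        exact (hhd.differentiableAt hnh).hasDerivAt
      have h4 : HasDerivAt (fun z : ℂ => x + (r : ℂ) * z) (r : ℂ) 0 := by
        have := ((hasDerivAt_id (0 : ℂ)).const_mul (r : ℂ)).const_add x
        simpa using this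
      exact HasDerivAt.comp (0 : ℂ) h3 h4
    rw [h2.deriv, norm_mul, Complex.norm_real, Real.norm_of_nonneg hr.le] at h1
    simp only [mul_zero, add_zero] at h1
    linarith
  have hder : HasDerivAt h (((deriv κ x * (β 0 x * R x - α 0 x * S x) + κ x *
      ((deriv (β 0) x * R x + β 0 x * deriv R x) - (deriv (α 0) x * S x + α 0 x * deriv S x))) *
      (β 2 x * R x - α 2 x * S x) - κ x * (β 0 x * R x - α 0 x * S x) *
      ((deriv (β 2) x * R x + β 2 x * deriv R x) - (deriv (α 2) x * S x + α 2 x * deriv S x))) /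
      (β 2 x * R x - α 2 x * S x) ^ 2) x := by
    rw [hh]
    exact (dκ.mul (((dβ 0).mul dR).sub ((dα 0).mul dS))).div (((dβ 2).mul dR).sub ((dα 2).mul dS)) (hL 2 x hx)
  have hL2 : β 2 x * R x - α 2 x * S x ≠ 0 := hL 2 x hx
  have q1 : ‖α 0 x‖ + ‖β 0 x‖ ≤ A := by rw [hA]; linarith
  have q2 : ‖α 2 x‖ + ‖β 2 x‖ ≤ A := by rw [hA]; linarith
  have q3 : ‖deriv (α 0) x‖ + ‖deriv (β 0) x‖ ≤ A := by rw [hA]; linarith
  have q4 : ‖deriv (α 2) x‖ + ‖deriv (β 2) x‖ ≤ A := by rw [hA]; linarith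
  refine lan_est hr hCL q1 q2 q3 q4
    (hκ0 x hx) (hD 0 2 (by decide) x hx) (h := h x) (h' := deriv h x) ?_ hdl ?_
  · rw [hh]
    exact div_mul_cancel₀ _ hL2
  · rw [hder.deriv]
    exact div_mul_cancel₀ _ (pow_ne_zero 2 hL2)



theorem lan3u {r : ℝ} (hr : 0 < r) {α β : Fin 3 → ℂ → ℂ}
    (hα : ∀ i, DifferentiableOn ℂ (α i) (ball 0 r)) (hβ : ∀ i, DifferentiableOn ℂ (β i) (ball 0 r))
    (hD : ∀ i j, i ≠ j → ∀ z ∈ ball (0 : ℂ) r, α i z * β j z - α j z * β i z ≠ 0) :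
    ∃ C : ℝ, 0 ≤ C ∧ ∀ R S : ℂ → ℂ, DifferentiableOn ℂ R (ball 0 r) → DifferentiableOn ℂ S (ball 0 r) →
      (∀ i, ∀ z ∈ ball (0 : ℂ) r, β i z * R z - α i z * S z ≠ 0) → ∀ x : ℂ, ‖x‖ ≤ r / 2 →
      ‖deriv R x * S x - R x * deriv S x‖ ≤ C * (‖R x‖ ^ 2 + ‖S x‖ ^ 2) := by
  obtain ⟨CL, hCL, hlan⟩ := landau
  have hsub : closedBall (0 : ℂ) (r / 2) ⊆ ball 0 r := closedBall_subset_ball (by linarith)
  have hkd : DifferentiableOn ℂ (kp α β) (ball 0 r) := by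
    unfold kp
    refine DifferentiableOn.div ?_ ?_ (fun z hz => hD 0 1 (by decide) z hz)
    · exact (((hα 1).mul (hβ 2)).sub ((hα 2).mul (hβ 1))).neg
    · exact ((hα 0).mul (hβ 1)).sub ((hα 1).mul (hβ 0))
  have hk0 : ∀ z ∈ ball (0 : ℂ) r, kp α β z ≠ 0 := by
    intro z hz
    unfold kp
    exact div_ne_zero (neg_ne_zero.2 (hD 1 2 (by decide) z hz)) (hD 0 1 (by decide) z hz)
  have hcd : ∀ f : ℂ → ℂ, DifferentiableOn ℂ f (ball 0 r) → ContinuousOn (deriv f) (closedBall 0 (r / 2)) :=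
    fun f hf => (hf.deriv isOpen_ball).continuousOn.mono hsub
  have hc : ∀ f : ℂ → ℂ, DifferentiableOn ℂ f (ball 0 r) → ContinuousOn f (closedBall 0 (r / 2)) :=
    fun f hf => hf.continuousOn.mono hsub
  have hcont : ContinuousOn (cst CL (r / 2) α β (kp α β)) (closedBall 0 (r / 2)) := by
    unfold cst
    have a0 := (hc _ (hα 0)).norm
    have a2 := (hc _ (hα 2)).norm
    have b0 := (hc _ (hβ 0)).norm
    have b2 := (hc _ (hβ 2)).norm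
    have a0' := (hcd _ (hα 0)).norm
    have a2' := (hcd _ (hα 2)).norm
    have b0' := (hcd _ (hβ 0)).norm
    have b2' := (hcd _ (hβ 2)).norm
    have hk := (hc _ hkd).norm
    have hk' := (hcd _ hkd).norm
    have hA := (((a0.add b0).add (a2.add b2)).add (a0'.add b0')).add (a2'.add b2')
    have hDc := (((hc _ (hα 0)).mul (hc _ (hβ 2))).sub ((hc _ (hα 2)).mul (hc _ (hβ 0)))).norm
    refine ContinuousOn.div ?_ (hk.mul hDc) fun z hz => ?_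
    · exact continuousOn_const.mul ((((continuousOn_const.mul (continuousOn_const.add (hk.pow 2))).mul (hA.pow 2)).add
        (hk'.mul (hA.pow 2))).add ((continuousOn_const.mul hk).mul (hA.pow 2)))
    · exact mul_ne_zero (norm_ne_zero_iff.2 (hk0 z (hsub hz)))
        (norm_ne_zero_iff.2 (hD 0 2 (by decide) z (hsub hz)))
  obtain ⟨C, hC⟩ := (isCompact_closedBall (0 : ℂ) (r / 2)).exists_bound_of_continuousOn hcont
  refine ⟨|C|, abs_nonneg C, fun R S hR hS hL x hx => ?_⟩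
  have hx' : x ∈ closedBall (0 : ℂ) (r / 2) := mem_closedBall_zero_iff.2 hx
  have hbs : ball x (r / 2) ⊆ ball 0 r := by
    intro z hz
    rw [mem_ball, dist_eq_norm] at hz
    rw [mem_ball_zero_iff]
    have h1 := norm_add_le (z - x) x
    rw [sub_add_cancel] at h1
    linarith
  have h1 := lan3x hCL hlan (x := x) (r := r / 2) (by linarith) (α := α) (β := β) (fun i => (hα i).mono hbs)
    (fun i => (hβ i).mono hbs) (fun i j hij z hz => hD i j hij z (hbs hz)) R S (hR.mono hbs) (hS.mono hbs)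
    (fun i z hz => hL i z (hbs hz))
  refine h1.trans (mul_le_mul_of_nonneg_right ?_ (by positivity))
  exact (le_abs_self _).trans ((hC x hx').trans (le_abs_self C))


open Pool.Agent.H44.Fatou Pool.Agent.H35.EX Pool.Agent.H44.RR Pool.Agent.H47.RJ

private theorem lp_ce (x y : OnePoint ℂ) : chord x y = Pool.Agent.H91.Fatou.chord x y := by
  induction x using OnePoint.rec with
  | infty =>
    induction y using OnePoint.rec with
    | infty =>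
      show (0 : ℝ) = _
      rw [Pool.Agent.H91.Fatou.chord_self]
    | coe w =>
      change 1 / √(1 + ‖w‖ ^ 2) = ‖(1 : ℂ) * 1 - w * 0‖ / (√(‖(1 : ℂ)‖ ^ 2 + ‖(0 : ℂ)‖ ^ 2) * √(‖w‖ ^ 2 + ‖(1 : ℂ)‖ ^ 2))
      simp [add_comm]
  | coe z =>
    induction y using OnePoint.rec with
    | infty =>
      change 1 / √(1 + ‖z‖ ^ 2) = ‖z * 0 - (1 : ℂ) * 1‖ / (√(‖z‖ ^ 2 + ‖(1 : ℂ)‖ ^ 2) * √(‖(1 : ℂ)‖ ^ 2 + ‖(0 : ℂ)‖ ^ 2))
      simp [add_comm]
    | coe w =>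
      change ‖z - w‖ / (√(1 + ‖z‖ ^ 2) * √(1 + ‖w‖ ^ 2)) =
        ‖z * 1 - w * 1‖ / (√(‖z‖ ^ 2 + ‖(1 : ℂ)‖ ^ 2) * √(‖w‖ ^ 2 + ‖(1 : ℂ)‖ ^ 2))
      simp [add_comm]

private theorem lp_pt {x y x' y' : ℂ} (h : x ≠ 0 ∨ y ≠ 0) (h' : x' ≠ 0 ∨ y' ≠ 0) :
    chord (pt x y) (pt x' y') = ‖x * y' - x' * y‖ /
      (Pool.Agent.H91.Fatou.nn x y * Pool.Agent.H91.Fatou.nn x' y') := by
  rw [lp_ce]
  exact Pool.Agent.H91.Fatou.chord_pt h h'

theorem lip_ch {R S : ℂ → ℂ} {x : ℂ} {ρ C : ℝ} (hR : DifferentiableOn ℂ R (ball x ρ))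
    (hS : DifferentiableOn ℂ S (ball x ρ)) (hne : ∀ z ∈ ball x ρ, R z ≠ 0 ∨ S z ≠ 0)
    (hC : ∀ z ∈ ball x ρ, ‖deriv R z * S z - R z * deriv S z‖ ≤ C * (‖R z‖ ^ 2 + ‖S z‖ ^ 2))
    {z w : ℂ} (hz : z ∈ ball x ρ) (hw : w ∈ ball x ρ) :
    chord (pt (R z) (S z)) (pt (R w) (S w)) ≤ C * ‖w - z‖ := by
  obtain ⟨u, hu⟩ : ∃ u : ℝ → ℂ, u = fun s : ℝ => z + (s : ℂ) * (w - z) := ⟨_, rfl⟩
  have hu0 : u 0 = z := by rw [hu]; simp
  have hu1 : u 1 = w := by rw [hu]; simp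
  have hub : ∀ s ∈ Icc (0 : ℝ) 1, u s ∈ ball x ρ := by
    intro s hs
    have h1 := (convex_ball x ρ) hz hw (by linarith [hs.2] : (0 : ℝ) ≤ 1 - s) hs.1 (by ring)
    have h2 : u s = (1 - s) • z + s • w := by
      rw [hu]
      simp only [Complex.real_smul]
      push_cast
      ring
    rw [h2]
    exact h1
  have hud : ∀ s : ℝ, HasDerivAt u (w - z) s := by
    intro s
    rw [hu]
    have h1 : HasDerivAt (fun s : ℝ => (s : ℂ)) 1 s := Complex.ofRealCLM.hasDerivAt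
    have h2 := (h1.mul_const (w - z)).const_add z
    rwa [one_mul] at h2
  obtain ⟨N, hN⟩ : ∃ N : ℝ → ℝ, N = fun s => Pool.Agent.H91.Fatou.nn (R (u s)) (S (u s)) := ⟨_, rfl⟩
  have hNpos : ∀ s ∈ Icc (0 : ℝ) 1, 0 < N s := fun s hs => by
    rw [hN]
    exact Pool.Agent.H91.Fatou.nn_pos (hne (u s) (hub s hs))
  have huc : Continuous u := continuous_iff_continuousAt.2 fun s => (hud s).continuousAt
  have hRa : ∀ s ∈ Icc (0 : ℝ) 1, ContinuousAt (fun s => R (u s)) s := fun s hs =>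
    ContinuousAt.comp (g := R) (hR.differentiableAt (isOpen_ball.mem_nhds (hub s hs))).continuousAt huc.continuousAt
  have hSa : ∀ s ∈ Icc (0 : ℝ) 1, ContinuousAt (fun s => S (u s)) s := fun s hs =>
    ContinuousAt.comp (g := S) (hS.differentiableAt (isOpen_ball.mem_nhds (hub s hs))).continuousAt huc.continuousAt
  have hNa : ∀ s ∈ Icc (0 : ℝ) 1, ContinuousAt N s := by
    intro s hs
    rw [hN]
    exact ContinuousAt.comp (g := fun q : ℂ × ℂ => Pool.Agent.H91.Fatou.nn q.1 q.2)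
      (Pool.Agent.H91.Fatou.nn_continuous.continuousAt) ((hRa s hs).prodMk (hSa s hs))
  have hN2 : ∀ s, N s * N s = ‖R (u s)‖ ^ 2 + ‖S (u s)‖ ^ 2 := by
    intro s
    rw [hN]
    show √(‖R (u s)‖ ^ 2 + ‖S (u s)‖ ^ 2) * √(‖R (u s)‖ ^ 2 + ‖S (u s)‖ ^ 2) = _
    exact Real.mul_self_sqrt (by positivity)
  have hK : ∀ a ∈ Icc (0 : ℝ) 1, ∀ b ∈ Icc (0 : ℝ) 1, chord (pt (R (u a)) (S (u a))) (pt (R (u b)) (S (u b))) =
      ‖R (u a) * S (u b) - R (u b) * S (u a)‖ / (N a * N b) := by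
    intro a ha b hb
    rw [hN]
    exact lp_pt (hne _ (hub a ha)) (hne _ (hub b hb))
  obtain ⟨θ, hθ⟩ : ∃ θ : ℝ → ℝ, θ = fun s =>
    chord (pt (R (u 0)) (S (u 0))) (pt (R (u s)) (S (u s))) := ⟨_, rfl⟩
  have h01 : (0 : ℝ) ∈ Icc (0 : ℝ) 1 := ⟨le_rfl, zero_le_one⟩
  have hθc : ContinuousOn θ (Icc 0 1) := by
    have h1 : ∀ s ∈ Icc (0 : ℝ) 1, θ s = ‖R (u 0) * S (u s) - R (u s) * S (u 0)‖ / (N 0 * N s) := by
      intro s hs
      rw [hθ]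
      exact hK 0 h01 s hs
    refine ContinuousOn.congr ?_ h1
    intro s hs
    refine (ContinuousAt.div ?_ (continuousAt_const.mul (hNa s hs))
      (mul_pos (hNpos 0 h01) (hNpos s hs)).ne').continuousWithinAt
    exact ((continuousAt_const.mul (hSa s hs)).sub ((hRa s hs).mul continuousAt_const)).norm
  -- the slope
  have hslope : ∀ s ∈ Ico (0 : ℝ) 1, ∀ r, C * ‖w - z‖ < r →
      ∃ᶠ t in 𝓝[>] s, slope θ s t < r := by
    intro s hs r hr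
    have hsI : s ∈ Icc (0 : ℝ) 1 := ⟨hs.1, hs.2.le⟩
    have hus := isOpen_ball.mem_nhds (hub s hsI)
    have hFd : HasDerivAt (fun t => R (u s) * S (u t) - R (u t) * S (u s))
        (R (u s) * ((w - z) * deriv S (u s)) - (w - z) * deriv R (u s) * S (u s)) s := by
      have h1 : HasDerivAt (fun t => S (u t)) ((w - z) * deriv S (u s)) s :=
        (hS.differentiableAt hus).hasDerivAt.scomp s (hud s)
      have h2 : HasDerivAt (fun t => R (u t)) ((w - z) * deriv R (u s)) s :=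
        (hR.differentiableAt hus).hasDerivAt.scomp s (hud s)
      exact (h1.const_mul _).sub (h2.mul_const _)
    have h3 := (hasDerivAt_iff_tendsto_slope.1 hFd).mono_left
      (nhdsWithin_mono s (fun t (ht : s < t) => ht.ne') : 𝓝[>] s ≤ 𝓝[≠] s)
    have h4 : Tendsto (fun t => ‖slope (fun t => R (u s) * S (u t) - R (u t) * S (u s)) s t‖ /
        (N s * N t)) (𝓝[>] s)
        (𝓝 (‖R (u s) * ((w - z) * deriv S (u s)) - (w - z) * deriv R (u s) * S (u s)‖ /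
          (N s * N s))) := by
      refine h3.norm.div ?_ (mul_pos (hNpos s hsI) (hNpos s hsI)).ne'
      exact (continuousAt_const.mul (hNa s hsI)).tendsto.mono_left nhdsWithin_le_nhds
    have h5 : ‖R (u s) * ((w - z) * deriv S (u s)) - (w - z) * deriv R (u s) * S (u s)‖ /
          (N s * N s) < r := by
      refine lt_of_le_of_lt ?_ hr
      rw [div_le_iff₀ (mul_pos (hNpos s hsI) (hNpos s hsI)), hN2]
      have h6 : R (u s) * ((w - z) * deriv S (u s)) - (w - z) * deriv R (u s) * S (u s) =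
          -((w - z) * (deriv R (u s) * S (u s) - R (u s) * deriv S (u s))) := by ring
      rw [h6, norm_neg, norm_mul]
      have h7 := hC (u s) (hub s ⟨hs.1, hs.2.le⟩)
      calc ‖w - z‖ * ‖deriv R (u s) * S (u s) - R (u s) * deriv S (u s)‖
          ≤ ‖w - z‖ * (C * (‖R (u s)‖ ^ 2 + ‖S (u s)‖ ^ 2)) :=
            mul_le_mul_of_nonneg_left h7 (norm_nonneg _)
        _ = _ := by ring
    have h8 := ((h4.eventually_lt_const h5).and self_mem_nhdsWithin).and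
      (Ioo_mem_nhdsGT hs.2)
    refine (h8.mono fun t ht => ?_).frequently
    obtain ⟨⟨ht1, ht2⟩, ht4⟩ := ht
    have htI : t ∈ Icc (0 : ℝ) 1 := ⟨hs.1.trans ht4.1.le, ht4.2.le⟩
    have ht3 : 0 < t - s := sub_pos.2 ht2
    refine lt_of_le_of_lt ?_ ht1
    have h9 : ‖slope (fun t => R (u s) * S (u t) - R (u t) * S (u s)) s t‖ =
        ‖R (u s) * S (u t) - R (u t) * S (u s)‖ / (t - s) := by
      rw [slope_def_module, sub_self, sub_zero, norm_smul, norm_inv, Real.norm_eq_abs,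
        abs_of_pos ht3, inv_mul_eq_div]
    have h10 : θ t - θ s ≤ ‖R (u s) * S (u t) - R (u t) * S (u s)‖ / (N s * N t) := by
      rw [← hK s hsI t htI, hθ]
      have := ch_tri (pt (R (u 0)) (S (u 0))) (pt (R (u s)) (S (u s))) (pt (R (u t)) (S (u t)))
      show chord (pt (R (u 0)) (S (u 0))) (pt (R (u t)) (S (u t))) -
        chord (pt (R (u 0)) (S (u 0))) (pt (R (u s)) (S (u s))) ≤ _
      linarith
    rw [slope_def_field, h9, div_right_comm]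
    exact div_le_div_of_nonneg_right h10 ht3.le
  have hfin : ∀ ε : ℝ, 0 < ε → θ 1 ≤ C * ‖w - z‖ + ε := by
    intro ε hε
    have h1 := image_le_of_liminf_slope_right_lt_deriv_boundary (f := θ)
      (f' := fun _ => C * ‖w - z‖) (a := 0) (b := 1) hθc hslope
      (B := fun s => (C * ‖w - z‖ + ε) * s) (B' := fun _ => C * ‖w - z‖ + ε) ?_ ?_ ?_
      (show (1 : ℝ) ∈ Icc (0 : ℝ) 1 from ⟨zero_le_one, le_rfl⟩)
    · simpa using h1
    · rw [hθ]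
      show chord (pt (R (u 0)) (S (u 0))) (pt (R (u 0)) (S (u 0))) ≤ _
      rw [chord_zero, mul_zero]
    · intro s
      have := (hasDerivAt_id s).const_mul (C * ‖w - z‖ + ε)
      rwa [mul_one] at this
    · intro s _ _
      show C * ‖w - z‖ < C * ‖w - z‖ + ε
      linarith
  have h1 : θ 1 ≤ C * ‖w - z‖ := le_of_forall_pos_le_add hfin
  rw [hθ] at h1
  have h2 : chord (pt (R (u 0)) (S (u 0))) (pt (R (u 1)) (S (u 1))) ≤ C * ‖w - z‖ := h1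
  rwa [hu0, hu1] at h2

/-- functions which omit three moving points are chordal Lipschitz -/
theorem lip3 {r : ℝ} (hr : 0 < r) {α β : Fin 3 → ℂ → ℂ}
    (hα : ∀ i, DifferentiableOn ℂ (α i) (ball 0 r)) (hβ : ∀ i, DifferentiableOn ℂ (β i) (ball 0 r))
    (hD : ∀ i j, i ≠ j → ∀ z ∈ ball (0 : ℂ) r, α i z * β j z - α j z * β i z ≠ 0) :
    ∃ C : ℝ, 0 ≤ C ∧ ∀ R S : ℂ → ℂ, DifferentiableOn ℂ R (ball 0 r) → DifferentiableOn ℂ S (ball 0 r) →
      (∀ i, ∀ z ∈ ball (0 : ℂ) r, β i z * R z - α i z * S z ≠ 0) → ∀ x : ℂ, ‖x‖ < r / 2 →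
      chord (pt (R 0) (S 0)) (pt (R x) (S x)) ≤ C * ‖x‖ := by
  obtain ⟨C, hC, h1⟩ := lan3u hr hα hβ hD
  refine ⟨C, hC, fun R S hR hS hL x hx => ?_⟩
  have hsub : ball (0 : ℂ) (r / 2) ⊆ ball 0 r := ball_subset_ball (by linarith)
  have h2 := lip_ch (x := 0) (ρ := r / 2) (hR.mono hsub) (hS.mono hsub) (fun z hz => ?_)
    (fun z hz => h1 R S hR hS hL z (mem_ball_zero_iff.1 hz).le) (z := 0) (w := x) (mem_ball_self (by linarith))
    (mem_ball_zero_iff.2 hx)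
  · rwa [sub_zero] at h2
  · by_contra hcon
    push Not at hcon
    apply hL 0 z (hsub hz)
    rw [hcon.1, hcon.2, mul_zero, mul_zero, sub_zero]

end Pool.Agent.H64.MJ
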