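import Pool.Agent.H64.MJ.FIN
import Pool.Agent.H64.MJ.LIP

/-!
# Module FSA: the Fatou set of a locally maximal map is the union of the basins of the attracting cycles

PROOF. Let `z0` be in the Fatou set of `v`, not attracted. By `eqc` no preimage of `X t` is near `z0` for small `t`, so `z0` is not in
the Julia set of `v_t = v + t w` (`jp_cov`). For `t = 1 / (n + 1)` and a generic direction `w` the point `z0` is attracted under `v_t`
(`fat`). The functions `t ↦ f_t^k z0` omit three moving points of the Julia set, so they are Lipschitz with one constant (`lip3`): the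
sinks which attract `z0` under `v_t` come near the points which are not attracted under `v`, against `na_jump`.
-/

set_option autoImplicit false

open Filter Topology Polynomial Metric Set MeasureTheory

namespace Pool.Agent.H64.MJ

open Pool.Agent.H44.Fatou Pool.Agent.H32.BT Pool.Agent.H79.Eul Pool.Agent.H79.Par
open Pool.Agent.H35.EX Pool.Agent.H44.RR Pool.Agent.H56.HR Pool.Agent.H44.RC Pool.Agent.H47.RJ
open Pool.Agent.H47.NM Pool.Agent.H47.NN Pool.Agent.H44.ND Pool.Agent.H79.ES Pool.Agent.H64.PC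

variable {d : ℕ} {v : E d}

/-- the orbits of a point which is in the Fatou set of all `v_t` move uniformly -/
theorem orb_lip {w : E d} {r : ℝ} {Q : Fin 3 → ℂ → ℂ} {X : ℂ → ℂ} {p : ℕ} (hBM : BM v w r Q X p) {s : ℝ}
    (hs : 0 < s) (hsr : s ≤ r) {z0 : ℂ}
    (hom : ∀ t : ℂ, ‖t‖ < s → ∀ k : ℕ, ∀ j, (Rf (v + t • w))^[k] (z0 : OnePoint ℂ) ≠ (Q j t : OnePoint ℂ)) :
    ∃ C : ℝ, 0 ≤ C ∧ ∀ t : ℂ, ‖t‖ < s / 2 → ∀ k : ℕ,
      chord ((Rf v)^[k] (z0 : OnePoint ℂ)) ((Rf (v + t • w))^[k] (z0 : OnePoint ℂ)) ≤ C * ‖t‖ := by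
  have hle : ∀ t ∈ ball (0 : ℂ) s, ‖t‖ ≤ r := fun t ht => (mem_ball_zero_iff.1 ht).le.trans hsr
  obtain ⟨C, hC, h1⟩ := lip3 hs (α := Q) (β := fun _ _ => 1)
    (fun i t ht => ((hBM.bd i).qan t (hle t ht)).differentiableAt.differentiableWithinAt)
    (fun i => differentiableOn_const _)
    (fun i j hij t ht => by
      rw [mul_one, mul_one]
      exact sub_ne_zero.2 (hBM.ne i j hij t (hle t ht)))
  refine ⟨C, hC, fun t ht k => ?_⟩
  have hGd : DifferentiableOn ℂ (fun t : ℂ => hi (v + t • w) k (z0, 1)) (ball 0 s) := by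
    intro t _
    have h2 : DifferentiableAt ℂ (fun t : ℂ => ((v + t • w, (z0, 1)) : E d × (ℂ × ℂ))) t :=
      ((differentiableAt_const _).add (differentiableAt_id.smul_const w)).prodMk (differentiableAt_const _)
    have h3 : DifferentiableAt ℂ (fun p : E d × (ℂ × ℂ) => hi p.1 k p.2)
        ((v + t • w, (z0, 1)) : E d × (ℂ × ℂ)) := (hi_an k _).differentiableAt
    exact (h3.comp t h2).differentiableWithinAt
  have hpt : ∀ t ∈ ball (0 : ℂ) s, ((hi (v + t • w) k (z0, 1)).1 ≠ 0 ∨ (hi (v + t • w) k (z0, 1)).2 ≠ 0) ∧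
      (Rf (v + t • w))^[k] (z0 : OnePoint ℂ) = pt (hi (v + t • w) k (z0, 1)).1 (hi (v + t • w) k (z0, 1)).2 := by
    intro t ht
    have h2 := hi_ne ((hBM.bd 0).cop t (hle t ht)) ((hBM.bd 0).deg t (hle t ht)) (q := ((z0, 1) : ℂ × ℂ))
      (Or.inr one_ne_zero) k
    have h3 : pt ((z0, 1) : ℂ × ℂ).1 ((z0, 1) : ℂ × ℂ).2 = (z0 : OnePoint ℂ) := by
      unfold pt
      rw [if_neg one_ne_zero, div_one]
    rw [h3] at h2
    exact h2
  have h2 := h1 (fun t => (hi (v + t • w) k (z0, 1)).1) (fun t => (hi (v + t • w) k (z0, 1)).2) hGd.fst hGd.snd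
    (fun j t ht h0 => by
      rw [one_mul] at h0
      obtain ⟨h3, h4⟩ := hpt t ht
      apply hom t (mem_ball_zero_iff.1 ht) k j
      rw [h4]
      exact (pt_coe_iff h3).2 h0) t ht
  have h3 := (hpt 0 (mem_ball_self hs)).2
  have h4 := (hpt t (mem_ball_zero_iff.2 (by linarith))).2
  rw [← h3, ← h4, zero_smul, add_zero] at h2
  exact h2

theorem fsa_gen (hd : 2 ≤ d) (h : Gen d (pol v.1) (pol v.2))
    (hi : ∀ p : ℕ, 0 < p → (Rf v)^[p] OnePoint.infty ≠ OnePoint.infty) (hup : ¬ Up v) {z0 : ℂ}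
    (hF : (z0 : OnePoint ℂ) ∈ FS (Rf v)) : Att (Rf v) (z0 : OnePoint ℂ) := by
  by_contra hna
  have hcop := h.cop
  have hdeg : max (pol v.1).natDegree (pol v.2).natDegree = d := by rw [h.ha, h.hb, max_self]
  have hN := nneu_of hd h hi hup
  obtain ⟨p, x, m, n, y, l, hp, hcx, hm, hn, hy, hl, hyy, hyx, hyc⟩ := marks_ex hd h hN z0
  obtain ⟨w, hw⟩ := dir_ex (Pool.Agent.H56.RD.fat (d := d) hd) v
  obtain ⟨r, Q, X, hBM, hX0, hQ0, hXJ, hQJ⟩ := bm_ex hd hcop hdeg hup hp hcx hm hn hy hl hyy hyx w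
  have hr := (hBM.bd 0).hr
  have hX0J : (X 0 : OnePoint ℂ) ∈ JS (Rf v) := by
    have h1 := hXJ 0 (by rw [norm_zero]; exact hr.le)
    rwa [zero_smul, add_zero] at h1
  obtain ⟨ε, hε, hεF⟩ : ∃ ε : ℝ, 0 < ε ∧ ∀ z ∈ ball z0 ε, (z : OnePoint ℂ) ∈ FS (Rf v) := by
    have h1 : ∀ᶠ y in 𝓝 (z0 : OnePoint ℂ), y ∈ FS (Rf v) := isOpen_interior.mem_nhds hF
    rw [OnePoint.nhds_coe_eq, eventually_map] at h1
    exact Metric.eventually_nhds_iff_ball.1 h1
  have he := eqc hBM (c0 := z0) (by rw [hQ0]; exact hyc 0) hε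
  obtain ⟨δ, hδ, hδe⟩ := Metric.eventually_nhds_iff_ball.1 he
  obtain ⟨ε2, hε2, hup2⟩ : ∃ ε2 : ℝ, 0 < ε2 ∧ ∀ u ∈ ball v ε2, IsCoprime (pol u.1) (pol u.2) →
      max (pol u.1).natDegree (pol u.2).natDegree = d → ¬ (NA v + 1 ≤ NA u) := by
    unfold Up at hup
    push Not at hup
    obtain ⟨ε2, h1, h2⟩ := hup
    exact ⟨ε2, h1, fun u hu h3 h4 h5 => absurd h5 (not_le.2 (h2 u hu h3 h4))⟩
  -- `z0` is in the Fatou set of the maps `v_t`
  obtain ⟨s, hsd⟩ : ∃ s, s = min r δ := ⟨_, rfl⟩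
  have hs : 0 < s := by rw [hsd]; exact lt_min hr hδ
  have hsr : s ≤ r := by rw [hsd]; exact min_le_left _ _
  have hsδ : s ≤ δ := by rw [hsd]; exact min_le_right _ _
  have hzF : ∀ t : ℂ, ‖t‖ < s → (z0 : OnePoint ℂ) ∉ JS (Rf (v + t • w)) := by
    intro t ht hzJ
    have htr : ‖t‖ ≤ r := (ht.trans_le hsr).le
    obtain ⟨j, b, ⟨b1, hb1, rfl⟩, hb2⟩ := Pool.Agent.H1.PU.jp_cov (v := v + t • w)
      ⟨hd, (hBM.bd 0).cop t htr, (hBM.bd 0).deg t htr⟩ (B := ((↑) : ℂ → OnePoint ℂ) '' ball z0 δ)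
      (OnePoint.isOpenEmbedding_coe.isOpenMap _ isOpen_ball) ⟨_, ⟨z0, mem_ball_self hδ, rfl⟩, hzJ⟩ (hXJ t htr)
    have hmem : (t, b1) ∈ ball ((0 : ℂ), z0) δ := by
      rw [← ball_prod_same]
      exact ⟨mem_ball_zero_iff.2 (ht.trans_le hsδ), hb1⟩
    obtain ⟨b', hb', hb3⟩ := hδe (t, b1) hmem j hb2
    have h1 := (Pool.Agent.H47.RJ.fs_iff (v := v) (by omega) hcop hdeg j (b' : OnePoint ℂ)).2 (hεF b' hb')
    rw [hb3] at h1
    exact hX0J h1
  obtain ⟨C, hC, hLip⟩ := orb_lip hBM hs hsr (z0 := z0) (fun t ht k j h0 => by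
    have htr : ‖t‖ ≤ r := (ht.trans_le hsr).le
    have h1 := hQJ j t htr
    rw [← h0] at h1
    apply hzF t ht
    intro h2
    exact h1 ((Pool.Agent.H47.RJ.fs_iff (v := v + t • w) (by omega) ((hBM.bd 0).cop t htr)
      ((hBM.bd 0).deg t htr) k (z0 : OnePoint ℂ)).2 h2))
  -- the sequence
  obtain ⟨t, htd⟩ : ∃ t : ℕ → ℂ, t = fun k : ℕ => (1 / ((k : ℂ) + 1)) := ⟨_, rfl⟩
  have ht : Tendsto t atTop (𝓝 0) := by
    have h1 := (Complex.continuous_ofReal.tendsto 0).comp (tendsto_one_div_add_atTop_nhds_zero_nat (𝕜 := ℝ))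
    rw [Complex.ofReal_zero] at h1
    rw [htd]
    refine h1.congr fun k => ?_
    simp
  have hlim : Tendsto (fun k : ℕ => v + t k • w) atTop (𝓝 v) := by
    have h1 := (ht.smul_const w).const_add v
    rwa [zero_smul, add_zero] at h1
  -- the attracted set is open, its complement contains the orbit of `z0`
  have hop : IsOpen {z : OnePoint ℂ | Att (Rf v) z} := by
    rw [isOpen_iff_mem_nhds]
    intro z hz
    obtain ⟨W, hW, h1⟩ := att_pers hd hcop hdeg hz
    exact mem_of_superset hW fun z hz => h1.self_of_nhds z hz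
  have horb : ∀ k : ℕ, ¬ Att (Rf v) ((Rf v)^[k] (z0 : OnePoint ℂ)) := by
    intro k hk
    exact hna ((Pool.Agent.H32.BT.att_iter (rat_continuous hcop) (z0 : OnePoint ℂ) k).1 hk)
  have hsink : ∀ k : ℕ, ‖t k‖ < s / 2 → ∃ (a b : OnePoint ℂ) (N : ℕ), IsSink (Rf (v + t k • w)) a N ∧
      ¬ Att (Rf v) b ∧ chord b a ≤ C * ‖t k‖ := by
    intro k hk
    have hks : ‖t k‖ < s := by linarith
    have htr : ‖t k‖ ≤ r := (hks.trans_le hsr).le
    have hwk := hw k
    have e1 : (1 / ((k : ℂ) + 1)) = t k := by rw [htd]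
    rw [e1] at hwk
    have hFu : FS (Rf (v + t k • w)) = {x | Att (Rf (v + t k • w)) x} := by
      by_contra h1
      exact hwk ⟨(hBM.bd 0).cop _ htr, (hBM.bd 0).deg _ htr, h1⟩
    have hzA : Att (Rf (v + t k • w)) (z0 : OnePoint ℂ) := by
      have h1 : (z0 : OnePoint ℂ) ∈ FS (Rf (v + t k • w)) := by
        by_contra h2
        exact hzF _ hks h2
      rw [hFu] at h1
      exact h1
    obtain ⟨a, N, hsk, hlima⟩ := hzA
    obtain ⟨b, -, σ, hσ, hlimb⟩ := isCompact_univ.tendsto_subseq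
      (x := fun i : ℕ => (Rf v)^[N * i] (z0 : OnePoint ℂ)) fun _ => mem_univ _
    refine ⟨a, b, N, hsk, ?_, ?_⟩
    · have hcl : IsClosed {z : OnePoint ℂ | ¬ Att (Rf v) z} := by
        have h1 := hop.isClosed_compl
        exact h1
      exact hcl.mem_of_tendsto hlimb (Eventually.of_forall fun i => horb _)
    · have h1 : Tendsto (fun i : ℕ => chord ((Rf v)^[N * σ i] (z0 : OnePoint ℂ))
          ((Rf (v + t k • w))^[N * σ i] (z0 : OnePoint ℂ))) atTop (𝓝 (chord b a)) := by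
        have h2 := hlimb.prodMk_nhds (hlima.comp hσ.tendsto_atTop)
        exact (chord_cont.continuousAt (x := (b, a))).tendsto.comp h2
      exact le_of_tendsto h1 (Eventually.of_forall fun i => hLip _ hk _)
  have hev : ∀ᶠ k in atTop, ‖t k‖ < s / 2 := by
    have h1 := ht.norm
    rw [norm_zero] at h1
    exact h1.eventually (gt_mem_nhds (by linarith))
  obtain ⟨k0, hk0⟩ := eventually_atTop.1 hev
  choose a b N ha hb hab using fun k : ℕ => hsink (k0 + k) (hk0 _ (Nat.le_add_right _ _))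
  obtain ⟨q, -, σ, hσ, hlimq⟩ := isCompact_univ.tendsto_subseq (x := b) fun _ => mem_univ _
  have hq : ¬ Att (Rf v) q := by
    have hcl : IsClosed {z : OnePoint ℂ | ¬ Att (Rf v) z} := by
      have h1 := hop.isClosed_compl
      exact h1
    exact hcl.mem_of_tendsto hlimq (Eventually.of_forall fun i => hb _)
  obtain ⟨ε1, hε1, hj⟩ := na_jump hd hcop hdeg hq
  -- the sinks are near `q`
  have hshift : Tendsto (fun i : ℕ => k0 + σ i) atTop atTop :=
    tendsto_atTop_mono (fun i => Nat.le_add_left _ _) hσ.tendsto_atTop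
  have h1 : Tendsto (fun i : ℕ => chord q (b (σ i))) atTop (𝓝 0) := by
    have h2 : ContinuousAt (fun y => chord q y) q :=
      (chord_cont.comp (Continuous.prodMk continuous_const continuous_id)).continuousAt
    have h3 := h2.tendsto.comp hlimq
    rwa [chord_zero] at h3
  have h2 : Tendsto (fun i : ℕ => C * ‖t (k0 + σ i)‖) atTop (𝓝 0) := by
    have h3 := (ht.norm.comp hshift).const_mul C
    rwa [norm_zero, mul_zero] at h3
  have h3 : ∀ᶠ i in atTop, chord q (a (σ i)) < ε1 := by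
    have h4 := (h1.add h2).eventually (gt_mem_nhds (by rw [add_zero]; exact hε1 : (0 : ℝ) + 0 < ε1))
    filter_upwards [h4] with i hi
    exact (Pool.Agent.H47.RJ.ch_tri q (b (σ i)) (a (σ i))).trans_lt (lt_of_le_of_lt (add_le_add le_rfl (hab (σ i))) hi)
  have h4 := hlim.comp hshift
  obtain ⟨i, ⟨hi1, hi2⟩, hi3, hi4⟩ := ((h3.and (h4.eventually (ball_mem_nhds v hε1))).and
    ((h4.eventually (ball_mem_nhds v hε2)).and (h4.eventually (cop_near hcop hdeg (by omega))))).exists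
  exact hup2 _ hi3 hi4.1 hi4.2 (hj _ hi2 hi4.1 hi4.2 (a (σ i)) (N (σ i)) hi1 (ha (σ i)))

/-- the Fatou set of a locally maximal map is the union of the basins -/
theorem fs_att (hd : 2 ≤ d) (hcop : IsCoprime (pol v.1) (pol v.2))
    (hdeg : max (pol v.1).natDegree (pol v.2).natDegree = d) (hup : ¬ Up v) {z : OnePoint ℂ}
    (hF : z ∈ FS (Rf v)) : Att (Rf v) z := by
  obtain ⟨L, G, φ, K, _, hG, hGL, hLG, hconj, hK, hGen, hinf, hfin⟩ := gen_av hd hcop hdeg (countable_singleton z)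
  have hφ := (hconj v hcop hdeg).2.2
  have hup1 : ¬ Up (L v) := fun h =>
    hup (up_chart hd hG hGL hLG (fun v h2 h3 => (hconj v h2 h3).2.2) hcop hdeg h)
  obtain ⟨z1, hz1⟩ := OnePoint.ne_infty_iff_exists.1 (hfin z rfl)
  have h2 : (z1 : OnePoint ℂ) ∈ FS (Rf (L v)) := by
    rw [hz1]
    exact (Pool.Agent.H76.SU.fs_conj hK hφ z).2 hF
  have h3 := fsa_gen hd hGen hinf hup1 h2
  rw [hz1] at h3
  exact (att_conj φ hφ z).1 h3

end Pool.Agent.H64.MJ
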