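import Pool.Agent.H44.ND.RND
import Pool.Agent.H79.PJ.RIter
import Pool.Agent.H64.PC.VB5

/-!
# Module CNT: infinitely many periodic points, finitely many of them are attracting

PROOF. `rat_iter` (H79/PJ/RIter): `f^n = A / B` with coprime `A, B` of maximal degree `d^n`; the fixed points of `f^n` are the roots of
`A - X B`, which has degree `d^n + 1` if `f^n ∞ ≠ ∞`; its roots are simple if no multiplier is `1`.
-/

set_option autoImplicit false

open Filter Topology Polynomial Metric Set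

namespace Pool.Agent.H64.MJ

open Pool.Agent.H44.Fatou Pool.Agent.H32.BT Pool.Agent.H79.Eul Pool.Agent.H79.Par
open Pool.Agent.H35.EX Pool.Agent.H44.RR Pool.Agent.H56.HR Pool.Agent.H44.RC Pool.Agent.H47.RJ
open Pool.Agent.H47.NM Pool.Agent.H47.NN Pool.Agent.H44.ND Pool.Agent.H79.ES

variable {d : ℕ} {v : E d}

/-- the multiplier is the derivative of the quotient -/
theorem cyc_der {p : ℕ} {x : ℕ → ℂ} {m : ℂ} (hc : Cyc (pol v.1) (pol v.2) p x m) {A B : Polynomial ℂ}
    (hAB : ∀ y, rat A B y = (Rf v)^[p] y) (hB : B.eval (x 0) ≠ 0) :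
    A.derivative.eval (x 0) * B.eval (x 0) - A.eval (x 0) * B.derivative.eval (x 0) = m * B.eval (x 0) ^ 2 := by
  have ho : Orb v x p := by
    intro j hj
    refine ⟨?_, ?_⟩
    · rw [← pol_eval]
      exact hc.ne j hj
    · rw [← pol_eval, ← pol_eval]
      exact hc.step j hj
  have hnear : ∀ᶠ z : ℂ in 𝓝 (x 0), ∀ j < p, ev v.2 (it v j z) ≠ 0 := by
    have h1 : Tendsto (fun z : ℂ => ((v, z) : E d × ℂ)) (𝓝 (x 0)) (𝓝 (v, x 0)) :=
      (Continuous.prodMk continuous_const continuous_id).tendsto (x 0)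
    exact h1.eventually (orb_near ho)
  have hmul : trD v p (x 0) = m := by
    rw [← hc.mul]
    unfold trD
    refine Finset.prod_congr rfl fun i hi => ?_
    rw [orb_it ho i (Finset.mem_range.1 hi).le, pol_eval]
    congr 1
    have h1 := wv_cf (pol_deg v.1) (pol_deg v.2) (x i)
    rw [cf_pol, cf_pol] at h1
    exact h1
  have hder := tr_hasDerivAt v (x 0) p hnear.self_of_nhds
  rw [hmul] at hder
  have hBn : ∀ᶠ z in 𝓝 (x 0), B.eval z ≠ 0 := B.continuous.continuousAt.eventually_ne hB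
  have heq : (fun z => A.eval z / B.eval z) =ᶠ[𝓝 (x 0)] fun z => it v p z := by
    filter_upwards [hnear, hBn] with z h1 h2
    have h3 := hAB (z : OnePoint ℂ)
    rw [rat_coe_of_ne h2, rat_it h1] at h3
    exact OnePoint.coe_injective h3
  have h1 : HasDerivAt (fun z => A.eval z / B.eval z)
      ((A.derivative.eval (x 0) * B.eval (x 0) - A.eval (x 0) * B.derivative.eval (x 0)) / B.eval (x 0) ^ 2) (x 0) :=
    (A.hasDerivAt (x 0)).div (B.hasDerivAt (x 0)) hB
  have h2 := (heq.hasDerivAt_iff.1 h1).unique hder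
  rw [div_eq_iff (pow_ne_zero 2 hB)] at h2
  exact h2

theorem fix_card (hd : 2 ≤ d) (hcop : IsCoprime (pol v.1) (pol v.2))
    (hdeg : max (pol v.1).natDegree (pol v.2).natDegree = d) {n : ℕ}
    (hi : (Rf v)^[n] OnePoint.infty ≠ OnePoint.infty)
    (hm : ∀ x m, Cyc (pol v.1) (pol v.2) n x m → m ≠ 1)
    (hc : ∀ z : ℂ, (Rf v)^[n] (z : OnePoint ℂ) = (z : OnePoint ℂ) →
      ∃ x m, x 0 = z ∧ Cyc (pol v.1) (pol v.2) n x m) :
    ∃ s : Finset ℂ, s.card = d ^ n + 1 ∧ ∀ z ∈ s, (Rf v)^[n] (z : OnePoint ℂ) = (z : OnePoint ℂ) := by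
  classical
  have hdg : dg (pol v.1) (pol v.2) = d := hdeg
  obtain ⟨A, B, hAB, hABd, hr⟩ := Pool.Agent.H79.PJ.rat_iter hcop (by rw [hdg]; omega) n
  rw [hdg] at hABd
  have hr' : ∀ y, rat A B y = (Rf v)^[n] y := hr
  have hpos : 0 < d ^ n := pow_pos (by omega) n
  have hBd : B.natDegree = d ^ n ∧ B ≠ 0 := by
    have h1 : rat A B OnePoint.infty ≠ OnePoint.infty := by rw [hr']; exact hi
    rw [rat_infty] at h1
    unfold pt at h1
    have h2 : B.coeff (dg A B) ≠ 0 := by
      intro h0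
      rw [if_pos h0] at h1
      exact h1 rfl
    rw [hABd] at h2
    have h3 : B.natDegree ≤ d ^ n := by
      rw [← hABd]
      exact le_max_right _ _
    refine ⟨le_antisymm h3 (le_natDegree_of_ne_zero h2), ?_⟩
    rintro rfl
    exact h2 (coeff_zero _)
  have hAd : A.natDegree ≤ d ^ n := by
    rw [← hABd]
    exact le_max_left _ _
  obtain ⟨T, hT⟩ : ∃ T : Polynomial ℂ, T = A - X * B := ⟨_, rfl⟩
  have hTe : ∀ z : ℂ, T.eval z = A.eval z - z * B.eval z := by
    intro z
    rw [hT, eval_sub, eval_mul, eval_X]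
  have hXB : (X * B).natDegree = d ^ n + 1 := by
    rw [natDegree_mul X_ne_zero hBd.2, natDegree_X, hBd.1]
    ring
  have hTd : T.natDegree = d ^ n + 1 := by
    rw [hT, natDegree_sub_eq_right_of_natDegree_lt (by rw [hXB]; omega), hXB]
  have hT0 : T ≠ 0 := by
    rintro h0
    rw [h0, natDegree_zero] at hTd
    omega
  have hroot : ∀ z : ℂ, T.eval z = 0 → B.eval z ≠ 0 ∧ (Rf v)^[n] (z : OnePoint ℂ) = (z : OnePoint ℂ) := by
    intro z hz
    rw [hTe] at hz
    have hB : B.eval z ≠ 0 := by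
      intro h0
      rw [h0, mul_zero, sub_zero] at hz
      obtain ⟨a, b, hab⟩ := hAB
      have h1 := congrArg (fun p => p.eval z) hab
      simp only [eval_add, eval_mul, hz, h0, mul_zero, add_zero, eval_one] at h1
      exact zero_ne_one h1
    refine ⟨hB, ?_⟩
    rw [← hr', rat_coe_of_ne hB]
    congr 1
    rw [div_eq_iff hB]
    linear_combination hz
  have hsim : ∀ z : ℂ, T.eval z = 0 → T.derivative.eval z ≠ 0 := by
    intro z hz h0
    obtain ⟨hB, hfix⟩ := hroot z hz
    obtain ⟨x, m, hx0, hcyc⟩ := hc z hfix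
    have h1 := cyc_der hcyc hr' (by rw [hx0]; exact hB)
    rw [hx0] at h1
    rw [hTe] at hz
    have h2 : T.derivative.eval z = A.derivative.eval z - (B.eval z + z * B.derivative.eval z) := by
      rw [hT, derivative_sub, derivative_mul, derivative_X, one_mul, eval_sub, eval_add, eval_mul, eval_X]
    rw [h2] at h0
    apply hm x m hcyc
    have h3 : A.eval z = z * B.eval z := sub_eq_zero.1 hz
    rw [h3] at h1
    have h4 : (m - 1) * B.eval z ^ 2 = 0 := by
      linear_combination -h1 + B.eval z * h0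
    rcases mul_eq_zero.1 h4 with h5 | h5
    · exact sub_eq_zero.1 h5
    · exact absurd (pow_eq_zero_iff (two_ne_zero)|>.1 h5) hB
  refine ⟨T.roots.toFinset, ?_, ?_⟩
  · have hnd : T.roots.Nodup := by
      rw [Multiset.nodup_iff_count_le_one]
      intro z
      rw [count_roots]
      by_contra hlt
      obtain ⟨h1, h2⟩ := (one_lt_rootMultiplicity_iff_isRoot hT0).1 (not_le.1 hlt)
      exact hsim z h1 h2
    rw [Multiset.toFinset_card_of_nodup hnd]
    have h1 : Multiset.card T.roots = T.natDegree := splits_iff_card_roots.1 (IsAlgClosed.splits T)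
    rw [h1, hTd]
  · intro z hz
    rw [Multiset.mem_toFinset, mem_roots hT0] at hz
    exact (hroot z hz).2

end Pool.Agent.H64.MJ
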