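import Pool.Agent.H79.ES.EN
import Pool.Agent.H47.NN.FIN
import Pool.Agent.H44.RR.CHT

/-!
# Module GAV: a chart in which the map is generic, infinity is not periodic, and given points are finite

The proof is the proof of `gen_ch` (H44/ND/GCH, helper44), with the images of the given points added to the countable set which
is avoided by the second chart.
-/

set_option autoImplicit false

open Filter Topology Polynomial Metric Set

namespace Pool.Agent.H64.MJ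

open Pool.Agent.H44.Fatou Pool.Agent.H32.BT Pool.Agent.H79.Eul Pool.Agent.H79.Par
open Pool.Agent.H35.EX Pool.Agent.H44.RR Pool.Agent.H47.NN

variable {d : ℕ}

open Pool.Agent.H44.RG Pool.Agent.H79.ES in
private theorem gch_av (S : Set (OnePoint ℂ)) (hS : S.Countable) (hd : 2 ≤ d) :
    ∃ (s : ℂ) (φ : OnePoint ℂ ≃ₜ OnePoint ℂ) (L : ℝ), (s : OnePoint ℂ) ∉ S ∧ φ s = OnePoint.infty ∧
      φ OnePoint.infty = ((0 : ℂ) : OnePoint ℂ) ∧
      (∀ v : E d, IsCoprime (pol v.1) (pol v.2) →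
        max (pol v.1).natDegree (pol v.2).natDegree = d →
        IsCoprime (pol (Lin s v).1) (pol (Lin s v).2) ∧
        max (pol (Lin s v).1).natDegree (pol (Lin s v).2).natDegree = d ∧
        ∀ x, Rf (Lin s v) (φ x) = φ (Rf v x)) ∧
      1 ≤ L ∧ ∀ x y, chord (φ x) (φ y) ≤ L * chord x y ∧ chord x y ≤ L * chord (φ x) (φ y) := by
  have hbad : {b : ℂ | (b : OnePoint ℂ) ∈ S}.Countable := countable_coe hS
  obtain ⟨s, hsS⟩ := (hbad.dense_compl ℂ).nonempty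
  obtain ⟨φ, hφ1, hφs, hφi, hφ⟩ := exists_mob s
  have hall : ∀ v : E d, IsCoprime (pol v.1) (pol v.2) →
      max (pol v.1).natDegree (pol v.2).natDegree = d →
      IsCoprime (pol (Lin s v).1) (pol (Lin s v).2) ∧
      max (pol (Lin s v).1).natDegree (pol (Lin s v).2).natDegree = d ∧
      ∀ x, Rf (Lin s v) (φ x) = φ (Rf v x) := by
    intro v hc he
    obtain ⟨h1, h2, h3⟩ := hφ d _ _ hc he (by omega)
    unfold Rf
    rw [chartNull_pol1, chartNull_pol2]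
    exact ⟨h1, h2, h3⟩
  obtain ⟨L, hL, hL2⟩ := chord_bilip hφs hφ1 hφi
  exact ⟨s, φ, L, hsS, hφs, hφi, hall, hL, hL2⟩

private theorem gch_pt {x y : ℂ} (h1 : pt x y ≠ OnePoint.infty)
    (h2 : pt x y ≠ ((0 : ℂ) : OnePoint ℂ)) : x ≠ 0 ∧ y ≠ 0 := by
  have hy : y ≠ 0 := by
    intro h
    apply h1
    unfold pt
    rw [if_pos h]
  refine ⟨?_, hy⟩
  intro h
  apply h2
  unfold pt
  rw [if_neg hy, h, zero_div]

theorem gen_av (hd : 2 ≤ d) {v0 : E d} (hcop : IsCoprime (pol v0.1) (pol v0.2))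
    (hdeg : max (pol v0.1).natDegree (pol v0.2).natDegree = d) {S : Set (OnePoint ℂ)} (hS : S.Countable) :
    ∃ (L G : E d → E d) (φ : OnePoint ℂ ≃ₜ OnePoint ℂ) (K : ℝ), Continuous L ∧ Continuous G ∧
      (∀ v, G (L v) = v) ∧ (∀ v, L (G v) = v) ∧
      (∀ v : E d, IsCoprime (pol v.1) (pol v.2) →
        max (pol v.1).natDegree (pol v.2).natDegree = d →
        IsCoprime (pol (L v).1) (pol (L v).2) ∧
        max (pol (L v).1).natDegree (pol (L v).2).natDegree = d ∧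
        ∀ x, Rf (L v) (φ x) = φ (Rf v x)) ∧
      (∀ x y, chord (φ x) (φ y) ≤ K * chord x y ∧ chord x y ≤ K * chord (φ x) (φ y)) ∧
      Gen d (pol (L v0).1) (pol (L v0).2) ∧
      (∀ p : ℕ, 0 < p → (Rf (L v0))^[p] OnePoint.infty ≠ OnePoint.infty) ∧
      ∀ x ∈ S, φ x ≠ OnePoint.infty := by
  -- first chart
  have hS1 : {x : OnePoint ℂ | (Rf v0)^[1] x = x}.Countable := by
    have h1 := per_finite hcop (by omega) (n := 1) one_pos
    exact h1.countable
  obtain ⟨s1, φ1, L1, hs1, hφs1, -, hall1, hL1, hch1⟩ := gch_av (d := d) _ hS1 hd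
  obtain ⟨hcop1, hdeg1, hcj1⟩ := hall1 v0 hcop hdeg
  have hg1 : Rf (Lin s1 v0) OnePoint.infty ≠ OnePoint.infty := by
    intro h
    apply hs1
    have h1 := hcj1 (s1 : OnePoint ℂ)
    rw [hφs1, h, ← hφs1] at h1
    exact (φ1.injective h1).symm
  -- second chart
  have hS2 : ((⋃ n : ℕ, {x : OnePoint ℂ | (Rf (Lin s1 v0))^[n + 1] x = x}) ∪
      (Rf (Lin s1 v0) ⁻¹' {OnePoint.infty} ∪ ({OnePoint.infty, Rf (Lin s1 v0) OnePoint.infty} ∪
        φ1 '' S))).Countable := by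
    refine Set.Countable.union ?_ (Set.Countable.union ?_ (Set.Countable.union ?_ ?_))
    · refine Set.countable_iUnion fun n => ?_
      exact (per_finite hcop1 (by omega) (n := n + 1) (Nat.succ_pos n)).countable
    · exact (rat_fiber_finite hcop1 (by omega) _).countable
    · exact (Set.toFinite _).countable
    · exact hS.image _
  obtain ⟨s2, φ2, L2, hs2, hφs2, hφi2, hall2, hL2, hch2⟩ := gch_av (d := d) _ hS2 hd
  obtain ⟨hcop2, hdeg2, hcj2⟩ := hall2 (Lin s1 v0) hcop1 hdeg1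
  have hper : ∀ p : ℕ, 0 < p → (Rf (Lin s1 v0))^[p] (s2 : OnePoint ℂ) ≠ (s2 : OnePoint ℂ) := by
    intro p hp h
    apply hs2
    left
    rw [Set.mem_iUnion]
    refine ⟨p - 1, ?_⟩
    have h1 : p - 1 + 1 = p := by omega
    change (Rf (Lin s1 v0))^[p - 1 + 1] (s2 : OnePoint ℂ) = (s2 : OnePoint ℂ)
    rw [h1]
    exact h
  have hgs : Rf (Lin s1 v0) (s2 : OnePoint ℂ) ≠ OnePoint.infty := by
    intro h
    apply hs2
    right
    left
    exact h
  have hgi : Rf (Lin s1 v0) OnePoint.infty ≠ (s2 : OnePoint ℂ) := by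
    intro h
    apply hs2
    right
    right
    left
    right
    exact h.symm
  have hi : Rf (Lin s2 (Lin s1 v0)) OnePoint.infty = φ2 (Rf (Lin s1 v0) (s2 : OnePoint ℂ)) := by
    rw [← hcj2, hφs2]
  have hz : Rf (Lin s2 (Lin s1 v0)) ((0 : ℂ) : OnePoint ℂ) =
      φ2 (Rf (Lin s1 v0) OnePoint.infty) := by
    rw [← hcj2, hφi2]
  have hi1 : Rf (Lin s2 (Lin s1 v0)) OnePoint.infty ≠ OnePoint.infty := by
    rw [hi]
    intro h
    exact hper 1 one_pos (φ2.injective (h.trans hφs2.symm))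
  have hi2 : Rf (Lin s2 (Lin s1 v0)) OnePoint.infty ≠ ((0 : ℂ) : OnePoint ℂ) := by
    rw [hi]
    intro h
    exact hgs (φ2.injective (h.trans hφi2.symm))
  have hz1 : Rf (Lin s2 (Lin s1 v0)) ((0 : ℂ) : OnePoint ℂ) ≠ OnePoint.infty := by
    rw [hz]
    intro h
    exact hgi (φ2.injective (h.trans hφs2.symm))
  have hz2 : Rf (Lin s2 (Lin s1 v0)) ((0 : ℂ) : OnePoint ℂ) ≠ ((0 : ℂ) : OnePoint ℂ) := by
    rw [hz]
    intro h
    exact hg1 (φ2.injective (h.trans hφi2.symm))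
  have hdg : dg (pol (Lin s2 (Lin s1 v0)).1) (pol (Lin s2 (Lin s1 v0)).2) = d := hdeg2
  have hgen : Gen d (pol (Lin s2 (Lin s1 v0)).1) (pol (Lin s2 (Lin s1 v0)).2) := by
    have e1 : Rf (Lin s2 (Lin s1 v0)) OnePoint.infty =
        pt ((pol (Lin s2 (Lin s1 v0)).1).coeff d) ((pol (Lin s2 (Lin s1 v0)).2).coeff d) := by
      unfold Rf
      rw [rat_infty, hdg]
    have e2 : Rf (Lin s2 (Lin s1 v0)) ((0 : ℂ) : OnePoint ℂ) =
        pt ((pol (Lin s2 (Lin s1 v0)).1).eval 0) ((pol (Lin s2 (Lin s1 v0)).2).eval 0) := by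
      unfold Rf
      exact rat_coe _ _ 0
    rw [e1] at hi1 hi2
    rw [e2] at hz1 hz2
    obtain ⟨a1, a2⟩ := gch_pt hi1 hi2
    obtain ⟨b1, b2⟩ := gch_pt hz1 hz2
    exact ⟨hcop2, le_antisymm (pol_deg _) (le_natDegree_of_ne_zero a1),
      le_antisymm (pol_deg _) (le_natDegree_of_ne_zero a2), b1, b2⟩
  obtain ⟨G1, hG1, hc1, hGL1, hLG1⟩ := Pool.Agent.H79.ES.lin_inv s1 d
  obtain ⟨G2, hG2, hc2, hGL2, hLG2⟩ := Pool.Agent.H79.ES.lin_inv s2 d
  refine ⟨fun v => Lin s2 (Lin s1 v), fun v => G1 (G2 v), φ1.trans φ2, L1 * L2, hc2.comp hc1,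
    hG1.comp hG2, fun v => by simp only [hGL2, hGL1], fun v => by simp only [hLG1, hLG2], ?_, ?_,
    hgen, ?_, ?_⟩
  · intro v hv hv'
    obtain ⟨h1, h2, h3⟩ := hall1 v hv hv'
    obtain ⟨h4, h5, h6⟩ := hall2 (Lin s1 v) h1 h2
    refine ⟨h4, h5, fun x => ?_⟩
    change Rf (Lin s2 (Lin s1 v)) (φ2 (φ1 x)) = φ2 (φ1 (Rf v x))
    rw [h6, h3]
  · intro x y
    change chord (φ2 (φ1 x)) (φ2 (φ1 y)) ≤ L1 * L2 * chord x y ∧
      chord x y ≤ L1 * L2 * chord (φ2 (φ1 x)) (φ2 (φ1 y))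
    obtain ⟨h1, h2⟩ := hch1 x y
    obtain ⟨h3, h4⟩ := hch2 (φ1 x) (φ1 y)
    constructor
    · calc chord (φ2 (φ1 x)) (φ2 (φ1 y)) ≤ L2 * chord (φ1 x) (φ1 y) := h3
        _ ≤ L2 * (L1 * chord x y) := mul_le_mul_of_nonneg_left h1 (by linarith)
        _ = L1 * L2 * chord x y := by ring
    · calc chord x y ≤ L1 * chord (φ1 x) (φ1 y) := h2
        _ ≤ L1 * (L2 * chord (φ2 (φ1 x)) (φ2 (φ1 y))) :=
            mul_le_mul_of_nonneg_left h4 (by linarith)
        _ = L1 * L2 * chord (φ2 (φ1 x)) (φ2 (φ1 y)) := by ring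
  · intro p hp h
    have h1 := iter_conj φ2 hcj2 p (s2 : OnePoint ℂ)
    rw [hφs2] at h1
    change (Rf (Lin s2 (Lin s1 v0)))^[p] OnePoint.infty = OnePoint.infty at h
    rw [h, ← hφs2] at h1
    exact hper p hp (φ2.injective h1).symm
  · intro x hx h
    change φ2 (φ1 x) = OnePoint.infty at h
    rw [← hφs2] at h
    apply hs2
    right
    right
    right
    exact ⟨x, hx, φ2.injective h⟩

end Pool.Agent.H64.MJ
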