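import Pool.Agent.H64.MJ.CJS
import Pool.Agent.H64.MJ.GAV
import Pool.Agent.H56.RD.FAT
import Pool.Agent.H1.PU.Jpl

/-!
# Module FIN: near a map with a Fatou critical point which is not attracted there are maps with more attracted critical points

PROOF. Suppose `¬ Up v` and `c0` is critical, in the Fatou set, not attracted. For a generic direction `w` the maps `v + w / (n + 1)`
have the Fatou set equal to the union of the basins (`fat`, H56/RD); their critical points near `c0` are not attracted (`na_up`,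
`¬ Up v`), so they are in the Julia set and are limits of preimages of the moving repelling point `X`. By `eqc` these preimages are near
preimages of `X 0` for `v`: so `c0` is in the Julia set of `v`.
-/

set_option autoImplicit false

open Filter Topology Polynomial Metric Set MeasureTheory

namespace Pool.Agent.H64.MJ

open Pool.Agent.H44.Fatou Pool.Agent.H32.BT Pool.Agent.H79.Eul Pool.Agent.H79.Par
open Pool.Agent.H35.EX Pool.Agent.H44.RR Pool.Agent.H56.HR Pool.Agent.H44.RC Pool.Agent.H47.RJ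
open Pool.Agent.H47.NM Pool.Agent.H47.NN Pool.Agent.H44.ND Pool.Agent.H79.ES Pool.Agent.H64.PC

variable {d : ℕ} {v : E d}

/-- a direction whose multiples avoid a null set -/
theorem dir_ex {N : Set (E d)} (hN : volume N = 0) (v : E d) :
    ∃ w : E d, ∀ n : ℕ, v + (1 / ((n : ℂ) + 1)) • w ∉ N := by
  have hH : (volume : Measure (E d)).IsAddHaarMeasure :=
    Measure.prod.instIsAddHaarMeasure (volume : Measure (Fin (d + 1) → ℂ)) (volume : Measure (Fin (d + 1) → ℂ))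
  have hb : ∀ n : ℕ, volume {w : E d | v + (1 / ((n : ℂ) + 1)) • w ∈ N} = 0 := by
    intro n
    have hc : (1 / ((n : ℝ) + 1)) ≠ 0 := by positivity
    have h1 : {w : E d | v + (1 / ((n : ℂ) + 1)) • w ∈ N} =
        (fun w : E d => (1 / ((n : ℝ) + 1)) • w) ⁻¹' ((fun x => v + x) ⁻¹' N) := by
      ext w
      show v + (1 / ((n : ℂ) + 1)) • w ∈ N ↔ v + (1 / ((n : ℝ) + 1)) • w ∈ N
      have h2 : (1 / ((n : ℂ) + 1)) • w = (1 / ((n : ℝ) + 1)) • w := by
        have h3 : (1 / ((n : ℂ) + 1)) = (((1 / ((n : ℝ) + 1)) : ℝ) : ℂ) := by push_cast; ring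
        rw [h3]
        ext i <;> simp
      rw [h2]
    rw [h1, Measure.addHaar_preimage_smul _ hc, measure_preimage_add, hN, mul_zero]
  have h2 : volume (⋃ n : ℕ, {w : E d | v + (1 / ((n : ℂ) + 1)) • w ∈ N}) = 0 := measure_iUnion_null hb
  by_contra hcon
  push Not at hcon
  have h3 : (⋃ n : ℕ, {w : E d | v + (1 / ((n : ℂ) + 1)) • w ∈ N}) = univ := by
    refine eq_univ_of_forall fun w => ?_
    rw [mem_iUnion]
    exact hcon w
  rw [h3] at h2
  have h4 : 0 < volume (univ : Set (E d)) := isOpen_univ.measure_pos volume univ_nonempty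
  exact h4.ne' h2

theorem mj_gen (hd : 2 ≤ d) (h : Gen d (pol v.1) (pol v.2))
    (hi : ∀ p : ℕ, 0 < p → (Rf v)^[p] OnePoint.infty ≠ OnePoint.infty) (hup : ¬ Up v) {c0 : ℂ}
    (hc : IsCrit (Rf v) (c0 : OnePoint ℂ)) (hF : (c0 : OnePoint ℂ) ∈ FS (Rf v)) : Att (Rf v) (c0 : OnePoint ℂ) := by
  by_contra hna
  have hcop := h.cop
  have hdeg : max (pol v.1).natDegree (pol v.2).natDegree = d := by rw [h.ha, h.hb, max_self]
  have hN := nneu_of hd h hi hup
  obtain ⟨p, x, m, n, y, l, hp, hcx, hm, hn, hy, hl, hyy, hyx, hyc⟩ := marks_ex hd h hN c0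
  obtain ⟨w, hw⟩ := dir_ex (Pool.Agent.H56.RD.fat (d := d) hd) v
  obtain ⟨r, Q, X, hBM, hX0, hQ0, hXJ, -⟩ := bm_ex hd hcop hdeg hup hp hcx hm hn hy hl hyy hyx w
  have hr := (hBM.bd 0).hr
  -- the Fatou set is open
  obtain ⟨ε, hε, hεF⟩ : ∃ ε : ℝ, 0 < ε ∧ ∀ z ∈ ball c0 ε, (z : OnePoint ℂ) ∈ FS (Rf v) := by
    have h1 : ∀ᶠ y in 𝓝 (c0 : OnePoint ℂ), y ∈ FS (Rf v) := isOpen_interior.mem_nhds hF
    rw [OnePoint.nhds_coe_eq, eventually_map] at h1
    exact Metric.eventually_nhds_iff_ball.1 h1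
  have he := eqc hBM (c0 := c0) (by rw [hQ0]; exact hyc 0) hε
  obtain ⟨δ, hδ, hδe⟩ := Metric.eventually_nhds_iff_ball.1 he
  -- the number of attracted critical points does not increase
  obtain ⟨ε1, hε1, hna1⟩ := na_up hd hcop hdeg hna
  obtain ⟨ε2, hε2, hup2⟩ : ∃ ε2 : ℝ, 0 < ε2 ∧ ∀ u ∈ ball v ε2, IsCoprime (pol u.1) (pol u.2) →
      max (pol u.1).natDegree (pol u.2).natDegree = d → ¬ (NA v + 1 ≤ NA u) := by
    unfold Up at hup
    push Not at hup
    obtain ⟨ε2, h1, h2⟩ := hup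
    exact ⟨ε2, h1, fun u hu h3 h4 h5 => absurd h5 (not_le.2 (h2 u hu h3 h4))⟩
  have hW : (((↑) : ℂ → OnePoint ℂ) '' ball c0 δ) ∩ {z | chord (c0 : OnePoint ℂ) z < ε1} ∈ 𝓝 (c0 : OnePoint ℂ) := by
    refine inter_mem ?_ (ch_ball _ hε1)
    exact (OnePoint.isOpenEmbedding_coe.isOpenMap _ isOpen_ball).mem_nhds ⟨c0, mem_ball_self hδ, rfl⟩
  have hcp := crit_pers hd hcop hdeg hc hW
  -- the sequence
  have ht : Tendsto (fun k : ℕ => (1 / ((k : ℂ) + 1))) atTop (𝓝 0) := by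
    have h1 := (Complex.continuous_ofReal.tendsto 0).comp (tendsto_one_div_add_atTop_nhds_zero_nat (𝕜 := ℝ))
    rw [Complex.ofReal_zero] at h1
    refine h1.congr fun k => ?_
    simp
  have hlim : Tendsto (fun k : ℕ => v + (1 / ((k : ℂ) + 1)) • w) atTop (𝓝 v) := by
    have h1 := (ht.smul_const w).const_add v
    rwa [zero_smul, add_zero] at h1
  have hev := ((hlim.eventually hcp).and ((hlim.eventually (ball_mem_nhds v hε1)).and
    ((hlim.eventually (ball_mem_nhds v hε2)).and ((hlim.eventually (cop_near hcop hdeg (by omega))).and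
    ((ht.eventually (ball_mem_nhds 0 hδ)).and (ht.eventually (closedBall_mem_nhds 0 hr)))))))
  obtain ⟨k, ⟨z, hzW, hzc⟩, hk1, hk2, hkc, hk3, hk4⟩ := hev.exists
  obtain ⟨⟨z1, hz1, hz1e⟩, hz2⟩ := hzW
  subst hz1e
  obtain ⟨t, htd⟩ : ∃ t : ℂ, t = 1 / ((k : ℂ) + 1) := ⟨_, rfl⟩
  obtain ⟨u, hud⟩ : ∃ u : E d, u = v + t • w := ⟨_, rfl⟩
  rw [← htd, ← hud] at hk1 hk2 hkc
  rw [← htd, ← hud] at hzc
  rw [← htd] at hk3 hk4
  have hwk := hw k
  rw [← htd, ← hud] at hwk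
  have hnat : ¬ Att (Rf u) (z1 : OnePoint ℂ) := fun h1 =>
    hup2 u hk2 hkc.1 hkc.2 (hna1 u hk1 _ hz2 hzc h1)
  have hFu : FS (Rf u) = {x | Att (Rf u) x} := by
    by_contra h1
    exact hwk ⟨hkc.1, hkc.2, h1⟩
  have hzJ : (z1 : OnePoint ℂ) ∈ JS (Rf u) := by
    intro h1
    rw [hFu] at h1
    exact hnat h1
  have htr : ‖t‖ ≤ r := by
    have h1 : dist t 0 ≤ r := hk4
    rwa [dist_zero_right] at h1
  have hXt := hXJ t htr
  rw [← hud] at hXt
  obtain ⟨j, b, ⟨b1, hb1, rfl⟩, hb2⟩ := Pool.Agent.H1.PU.jp_cov (v := u) ⟨hd, hkc.1, hkc.2⟩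
    (B := ((↑) : ℂ → OnePoint ℂ) '' ball c0 δ) (OnePoint.isOpenEmbedding_coe.isOpenMap _ isOpen_ball)
    ⟨_, ⟨z1, hz1, rfl⟩, hzJ⟩ hXt
  have hmem : (t, b1) ∈ ball ((0 : ℂ), c0) δ := by
    rw [← ball_prod_same]
    exact ⟨hk3, hb1⟩
  obtain ⟨b', hb', hb3⟩ := hδe (t, b1) hmem j (by
    show (Rf (v + t • w))^[j] (b1 : OnePoint ℂ) = (X t : OnePoint ℂ)
    rw [← hud]
    exact hb2)
  have hX0J : (X 0 : OnePoint ℂ) ∈ JS (Rf v) := by
    have h1 := hXJ 0 (by rw [norm_zero]; exact hr.le)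
    rwa [zero_smul, add_zero] at h1
  have h1 := (Pool.Agent.H47.RJ.fs_iff (v := v) (by omega) hcop hdeg j (b' : OnePoint ℂ)).2 (hεF b' hb')
  rw [hb3] at h1
  exact hX0J h1

/-- Fatou critical points of locally maximal maps are attracted -/
theorem mj (hd : 2 ≤ d) (hcop : IsCoprime (pol v.1) (pol v.2))
    (hdeg : max (pol v.1).natDegree (pol v.2).natDegree = d) (hup : ¬ Up v) {c : OnePoint ℂ}
    (hc : IsCrit (Rf v) c) (hF : c ∈ FS (Rf v)) : Att (Rf v) c := by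
  obtain ⟨L, G, φ, K, _, hG, hGL, hLG, hconj, hK, hGen, hinf, hfin⟩ := gen_av hd hcop hdeg (countable_singleton c)
  have hφ := (hconj v hcop hdeg).2.2
  have hup1 : ¬ Up (L v) := fun h =>
    hup (up_chart hd hG hGL hLG (fun v h2 h3 => (hconj v h2 h3).2.2) hcop hdeg h)
  obtain ⟨c1, hc1⟩ := OnePoint.ne_infty_iff_exists.1 (hfin c rfl)
  have h1 : IsCrit (Rf (L v)) (c1 : OnePoint ℂ) := by
    rw [hc1]
    exact (isCrit_conj φ hφ c).2 hc
  have h2 : (c1 : OnePoint ℂ) ∈ FS (Rf (L v)) := by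
    rw [hc1]
    exact (Pool.Agent.H76.SU.fs_conj hK hφ c).2 hF
  have h3 := mj_gen hd hGen hinf hup1 h1 h2
  rw [hc1] at h3
  exact (att_conj φ hφ c).1 h3

end Pool.Agent.H64.MJ
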